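import Pool.Agent.Y39.LinUpper

/-! The group `E2` has exact constant `1/2`. -/

open Matrix Module

namespace Y39.LinSofic

variable {K : Type*} [Field K]

theorem not_approximable {ε : ℝ} (hε : 1 / 2 < ε) : ¬ Approximable K ε E2 := by
  classical
  intro hA
  -- choice of `k`
  obtain ⟨k, hk⟩ := pow_unbounded_of_one_lt (ε / (ε - 1 / 2)) (one_lt_two)
  have hpos : (0 : ℝ) < ε - 1 / 2 := by linarith
  rw [div_lt_iff₀ hpos] at hk
  set P : ℝ := (2 : ℝ) ^ k with hP
  have hP1 : 1 ≤ P := one_le_pow₀ (by norm_num)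
  set c : ℝ := (P - 1) * ε - P / 2 with hc
  have hc0 : 0 < c := by
    rw [hc]
    nlinarith
  obtain ⟨n, hn, φ, h1, h2⟩ := hA (HH k) (c / (2 * P ^ 3)) (by positivity)
  set δ : ℝ := c / (2 * P ^ 3) with hδ
  have hδ0 : 0 < δ := by positivity
  have hn' : (0 : ℝ) < n := by exact_mod_cast hn
  let f : E2 → Module.End K (Fin n → K) := fun g =>
    Matrix.mulVecLin (φ g : Matrix (Fin n) (Fin n) K)
  let D : (HH k) × (HH k) → Module.End K (Fin n → K) := fun p =>
    Matrix.mulVecLin (((φ p.1 * φ p.2 : GL (Fin n) K) : Matrix (Fin n) (Fin n) K) -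
      (φ (p.1 * p.2) : Matrix (Fin n) (Fin n) K))
  let T : (Fin n → K) →ₗ[K] ((p : (HH k) × (HH k)) → LinearMap.range (D p)) :=
    LinearMap.pi (fun p => (D p).rangeRestrict)
  let W : Submodule K (Fin n → K) := LinearMap.ker T
  have hWmem : ∀ w, w ∈ W ↔ ∀ g ∈ HH k, ∀ h ∈ HH k, f g (f h w) = f (g * h) w := by
    intro w
    have h3 : w ∈ W ↔ ∀ p : (HH k) × (HH k), D p w = 0 := by
      change T w = 0 ↔ _
      constructor
      · intro h p
        have h4 := congrFun h p
        exact congrArg Subtype.val h4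
      · intro h
        funext p
        exact Subtype.ext (h p)
    rw [h3]
    have h4 : ∀ p : (HH k) × (HH k), D p w = f p.1 (f p.2 w) - f (p.1 * p.2) w := by
      intro p
      simp only [D, f, Matrix.mulVecLin_apply, Matrix.sub_mulVec, Units.val_mul,
        Matrix.mulVec_mulVec]
    constructor
    · intro h g hg h' hh'
      have h5 := h (⟨g, hg⟩, ⟨h', hh'⟩)
      rw [h4] at h5
      exact sub_eq_zero.1 h5
    · intro h p
      rw [h4, sub_eq_zero]
      exact h _ p.1.2 _ p.2.2
  have hinj : ∀ g, Function.Injective (f g) := by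
    intro g
    have h3 : IsUnit (φ g : Matrix (Fin n) (Fin n) K) := (φ g).isUnit
    exact Matrix.mulVec_injective_of_isUnit h3
  have hW : Exact f k W := by
    refine ⟨?_, ?_, ?_⟩
    · intro a ha w hw
      rw [hWmem] at hw ⊢
      intro g hg h hh
      rw [hw h hh a ha, hw g hg _ (mul_mem_HH hh ha), hw _ (mul_mem_HH hg hh) a ha, mul_assoc]
    · intro g hg h hh w hw
      exact (hWmem w).1 hw g hg h hh
    · intro w hw
      have h3 := (hWmem w).1 hw 1 (one_mem_HH k) 1 (one_mem_HH k)
      rw [mul_one] at h3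
      exact hinj 1 h3
  have hup := upper f k W hW
  -- the codimension of `W`
  have hcod : (n : ℝ) - finrank K W ≤ P ^ 2 * (δ * n) := by
    have h3 := LinearMap.finrank_range_add_finrank_ker T
    rw [Module.finrank_fintype_fun_eq_card, Fintype.card_fin] at h3
    have h4 : finrank K (LinearMap.range T) ≤ ∑ p : (HH k) × (HH k), finrank K (LinearMap.range (D p)) := by
      rw [← Module.finrank_pi_fintype]
      exact Submodule.finrank_le _
    have h5 : ∀ p : (HH k) × (HH k), (finrank K (LinearMap.range (D p)) : ℝ) ≤ δ * n := by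
      intro p
      have h6 := h1 p.1 p.1.2 p.2 p.2.2
      unfold dRank at h6
      rw [div_lt_iff₀ hn'] at h6
      exact h6.le
    have h7 : ((∑ p : (HH k) × (HH k), finrank K (LinearMap.range (D p)) : ℕ) : ℝ) ≤
        P ^ 2 * (δ * n) := by
      push_cast
      refine (Finset.sum_le_sum (fun p _ => h5 p)).trans ?_
      rw [Finset.sum_const, Finset.card_univ, Fintype.card_prod, Fintype.card_coe, card_HH,
        nsmul_eq_mul]
      push_cast
      rw [sq]
    have h8 : (n : ℝ) = finrank K (LinearMap.range T) + finrank K W := by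
      exact_mod_cast h3.symm
    have h9 : (finrank K (LinearMap.range T) : ℝ) ≤
      ((∑ p : (HH k) × (HH k), finrank K (LinearMap.range (D p)) : ℕ) : ℝ) := by
      exact_mod_cast h4
    linarith
  have hWn : (finrank K W : ℝ) ≤ n := by
    have h3 := Submodule.finrank_le W
    rw [Module.finrank_fintype_fun_eq_card, Fintype.card_fin] at h3
    exact_mod_cast h3
  -- rank estimates
  have hrk : ∀ g ∈ HH k, (((φ g : Matrix (Fin n) (Fin n) K) -
      (φ 1 : Matrix (Fin n) (Fin n) K)).rank : ℝ) ≤
      finrank K (W.map (f g - 1)) + (n - finrank K W) := by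
    intro g _
    have h3 : ((φ g : Matrix (Fin n) (Fin n) K) - (φ 1 : Matrix (Fin n) (Fin n) K)).mulVecLin
        = f g - f 1 := by
      ext v
      simp [f]
    obtain ⟨U, hU⟩ := W.exists_isCompl
    have h4 : finrank K W + finrank K U = n := by
      rw [Submodule.finrank_add_eq_of_isCompl hU, Module.finrank_fintype_fun_eq_card,
        Fintype.card_fin]
    have h5 : LinearMap.range (f g - f 1) ≤ W.map (f g - 1) ⊔ U.map (f g - f 1) := by
      have h6 : W.map (f g - 1) = W.map (f g - f 1) := by
        apply le_antisymm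
        · rintro _ ⟨w, hw, rfl⟩
          refine ⟨w, hw, ?_⟩
          simp only [LinearMap.sub_apply, Module.End.one_apply, hW.one w hw]
        · rintro _ ⟨w, hw, rfl⟩
          refine ⟨w, hw, ?_⟩
          simp only [LinearMap.sub_apply, Module.End.one_apply, hW.one w hw]
      rw [h6, ← Submodule.map_sup, hU.sup_eq_top, Submodule.map_top]
    have h7 : ((φ g : Matrix (Fin n) (Fin n) K) - (φ 1 : Matrix (Fin n) (Fin n) K)).rank ≤
        finrank K (W.map (f g - 1)) + finrank K U := by
      rw [Matrix.rank, h3]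
      refine (Submodule.finrank_mono h5).trans ?_
      refine (Submodule.finrank_add_le_finrank_add_finrank _ _).trans ?_
      exact Nat.add_le_add_left (Submodule.finrank_map_le _ _) _
    have h8 : (((φ g : Matrix (Fin n) (Fin n) K) - (φ 1 : Matrix (Fin n) (Fin n) K)).rank : ℝ) ≤
        finrank K (W.map (f g - 1)) + finrank K U := by exact_mod_cast h7
    have h9 : (finrank K W : ℝ) + finrank K U = n := by exact_mod_cast h4
    linarith
  have hsum1 : ∑ g ∈ HH k, (((φ g : Matrix (Fin n) (Fin n) K) -
      (φ 1 : Matrix (Fin n) (Fin n) K)).rank : ℝ) ≤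
      P / 2 * n + P * (P ^ 2 * (δ * n)) := by
    refine (Finset.sum_le_sum hrk).trans ?_
    rw [Finset.sum_add_distrib, Finset.sum_const, card_HH, nsmul_eq_mul]
    have h3 : (2 : ℝ) * ∑ g ∈ HH k, (finrank K (W.map (f g - 1)) : ℝ) ≤
        2 ^ k * finrank K W := by exact_mod_cast hup
    push_cast
    rw [← hP] at h3 ⊢
    nlinarith
  have hsum2 : (P - 1) * ((ε - δ) * n) ≤ ∑ g ∈ HH k, (((φ g : Matrix (Fin n) (Fin n) K) -
      (φ 1 : Matrix (Fin n) (Fin n) K)).rank : ℝ) := by
    rw [← Finset.add_sum_erase _ _ (one_mem_HH k)]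
    have h3 : ∑ g ∈ (HH k).erase 1, (ε - δ) * (n : ℝ) ≤
        ∑ g ∈ (HH k).erase 1, (((φ g : Matrix (Fin n) (Fin n) K) -
      (φ 1 : Matrix (Fin n) (Fin n) K)).rank : ℝ) := by
      apply Finset.sum_le_sum
      intro g hg
      have h4 := h2 g (Finset.mem_of_mem_erase hg) 1 (one_mem_HH k) (Finset.ne_of_mem_erase hg)
      unfold dRank at h4
      rw [lt_div_iff₀ hn'] at h4
      exact h4.le
    rw [Finset.sum_const, Finset.card_erase_of_mem (one_mem_HH k), card_HH, nsmul_eq_mul,
      Nat.cast_sub Nat.one_le_two_pow] at h3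
    push_cast at h3
    rw [← hP] at h3
    have h5 : (0 : ℝ) ≤ (((φ 1 : Matrix (Fin n) (Fin n) K) -
      (φ 1 : Matrix (Fin n) (Fin n) K)).rank : ℝ) := Nat.cast_nonneg _
    linarith
  have hfin : (P - 1) * (ε - δ) ≤ P / 2 + P * (P ^ 2 * δ) := by
    have h3 : (P - 1) * (ε - δ) * n ≤ (P / 2 + P * (P ^ 2 * δ)) * n := by nlinarith
    exact le_of_mul_le_mul_right h3 hn'
  have hδc : δ * (2 * P ^ 3) = c := by
    rw [hδ]
    field_simp
  have hP3 : P ≤ P ^ 3 := by nlinarith [sq_nonneg P, sq_nonneg (P - 1)]
  nlinarith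

/-- Passage from arbitrary finite index types to `Fin n`. -/
theorem Approximable.of_fintype {G : Type*} [Group G] {ε : ℝ}
    (h : ∀ (F : Finset G) (δ : ℝ), 0 < δ → ∃ (ι : Type) (_ : Fintype ι) (_ : DecidableEq ι)
      (_ : Nonempty ι) (φ : G → (Matrix ι ι K)ˣ),
      (∀ g ∈ F, ∀ h ∈ F, (((φ g * φ h : (Matrix ι ι K)ˣ) : Matrix ι ι K) -
        (φ (g * h) : Matrix ι ι K)).rank < δ * Fintype.card ι) ∧
      (∀ g ∈ F, ∀ h ∈ F, g ≠ h → (ε - δ) * Fintype.card ι <
        (((φ g : Matrix ι ι K) - (φ h : Matrix ι ι K)).rank : ℝ))) : Approximable K ε G := by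
  intro F δ hδ
  obtain ⟨ι, _, _, _, φ, h1, h2⟩ := h F δ hδ
  set e := Fintype.equivFin ι with he
  set N := Fintype.card ι with hN
  have hNpos : 0 < N := Fintype.card_pos
  have hN' : (0 : ℝ) < N := by exact_mod_cast hNpos
  let Φ : (Matrix ι ι K) →* (Matrix (Fin N) (Fin N) K) :=
    (Matrix.reindexRingEquiv K e : Matrix ι ι K ≃+* Matrix (Fin N) (Fin N) K).toRingHom.toMonoidHom
  have hΦ : ∀ M : Matrix ι ι K, Φ M = M.submatrix e.symm e.symm := fun M => rfl
  have hrank : ∀ u v : (Matrix ι ι K)ˣ,
      ((Units.map Φ u : Matrix (Fin N) (Fin N) K) - (Units.map Φ v : Matrix (Fin N) (Fin N) K)).rank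
      = ((u : Matrix ι ι K) - v).rank := by
    intro u v
    have h3 : (Units.map Φ u : Matrix (Fin N) (Fin N) K) - (Units.map Φ v : Matrix (Fin N) (Fin N) K)
        = ((u : Matrix ι ι K) - v).submatrix e.symm e.symm := by
      rw [Units.coe_map, Units.coe_map]
      change Φ _ - Φ _ = _
      rw [hΦ, hΦ]
      rfl
    rw [h3, Matrix.rank_submatrix]
  refine ⟨N, hNpos, fun g => Units.map Φ (φ g), ?_, ?_⟩
  · intro g hg k hk
    unfold dRank
    rw [← map_mul, hrank, div_lt_iff₀ hN']
    exact h1 g hg k hk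
  · intro g hg k hk hgk
    unfold dRank
    rw [hrank, lt_div_iff₀ hN']
    exact h2 g hg k hk hgk

/-- The permutation matrices of translations. -/
noncomputable def transHom (K : Type*) [Field K] (S : Finset ℕ) :
    E2 →* Matrix (S → ZMod 2) (S → ZMod 2) K where
  toFun g := Matrix.of fun a b => if b = a + (fun i : S => (Multiplicative.toAdd g) i) then 1 else 0
  map_one' := by
    ext a b
    rw [Matrix.of_apply, Matrix.one_apply]
    have h : (a + fun i : S => (Multiplicative.toAdd (1 : E2)) i) = a := by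
      ext i
      simp
    rw [h]
    simp [eq_comm]
  map_mul' g h := by
    ext a b
    rw [Matrix.mul_apply]
    simp only [Matrix.of_apply, ite_mul, one_mul, zero_mul, Finset.sum_ite_eq', Finset.mem_univ,
      if_true]
    have h3 : (a + fun i : S => (Multiplicative.toAdd (g * h)) i)
        = a + (fun i : S => (Multiplicative.toAdd g) i) +
          (fun i : S => (Multiplicative.toAdd h) i) := by
      ext i
      simp [toAdd_mul, add_assoc]
    rw [h3]

theorem transHom_mulVec (S : Finset ℕ) (g : E2) (v : (S → ZMod 2) → K) (a : S → ZMod 2) :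
    ((transHom K S g) *ᵥ v) a = v (a + (fun i : S => (Multiplicative.toAdd g) i)) := by
  simp [transHom, Matrix.mulVec, dotProduct]

theorem transHom_rank (S : Finset ℕ) (g h : E2) (i : S)
    (hi : (Multiplicative.toAdd g) i ≠ (Multiplicative.toAdd h) i) :
    Fintype.card (S → ZMod 2) ≤ 2 * (transHom K S g - transHom K S h).rank := by
  classical
  set M := transHom K S g - transHom K S h with hM
  have hker : ∀ v ∈ LinearMap.ker M.mulVecLin, ∀ a : S → ZMod 2,
      v (a + (fun i : S => (Multiplicative.toAdd g) i)) =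
        v (a + (fun i : S => (Multiplicative.toAdd h) i)) := by
    intro v hv a
    rw [LinearMap.mem_ker, Matrix.mulVecLin_apply, hM, Matrix.sub_mulVec] at hv
    have h1 := congrFun hv a
    rw [Pi.sub_apply, transHom_mulVec, transHom_mulVec] at h1
    exact sub_eq_zero.1 h1
  -- the difference vector
  set x : S → ZMod 2 := fun i => (Multiplicative.toAdd g) i + (Multiplicative.toAdd h) i with hx
  have hxi : x i = 1 := by
    have h1 : ∀ a b : ZMod 2, a ≠ b → a + b = 1 := by decide
    exact h1 _ _ hi
  have hker2 : ∀ v ∈ LinearMap.ker M.mulVecLin, ∀ a : S → ZMod 2, v (a + x) = v a := by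
    intro v hv a
    have h1 := hker v hv (a + (fun i : S => (Multiplicative.toAdd h) i))
    have h2 : a + (fun i : S => (Multiplicative.toAdd h) i) +
        (fun i : S => (Multiplicative.toAdd g) i) = a + x := by
      ext j
      simp only [Pi.add_apply, hx]
      ring
    have h3 : a + (fun i : S => (Multiplicative.toAdd h) i) +
        (fun i : S => (Multiplicative.toAdd h) i) = a := by
      ext j
      simp only [Pi.add_apply]
      rw [add_assoc, CharTwo.add_self_eq_zero, add_zero]
    rw [h2, h3] at h1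
    exact h1
  let N := LinearMap.ker M.mulVecLin
  let F : (N × N) →ₗ[K] ((S → ZMod 2) → K) :=
    { toFun := fun p a => if a i = 0 then p.1.1 a else p.2.1 a
      map_add' := by
        intro p q
        funext a
        by_cases ha : a i = 0 <;> simp [ha]
      map_smul' := by
        intro c p
        funext a
        by_cases ha : a i = 0 <;> simp [ha] }
  have hFinj : Function.Injective F := by
    rw [← LinearMap.ker_eq_bot, LinearMap.ker_eq_bot']
    intro p hp
    have h01 : ∀ b : ZMod 2, b ≠ 0 → b + 1 = 0 := by decide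
    have h02 : ∀ b : ZMod 2, b = 0 → b + 1 ≠ 0 := by decide
    have h1 : ∀ a : S → ZMod 2, a i = 0 → p.1.1 a = 0 := by
      intro a ha
      have := congrFun hp a
      simpa [F, ha] using this
    have h2 : ∀ a : S → ZMod 2, a i ≠ 0 → p.2.1 a = 0 := by
      intro a ha
      have := congrFun hp a
      simpa [F, ha] using this
    ext a
    · by_cases ha : a i = 0
      · exact h1 a ha
      · rw [← hker2 p.1.1 p.1.2 a]
        apply h1
        rw [Pi.add_apply, hxi]
        exact h01 _ ha
    · by_cases ha : a i = 0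
      · rw [← hker2 p.2.1 p.2.2 a]
        apply h2
        rw [Pi.add_apply, hxi]
        exact h02 _ ha
      · exact h2 a ha
  have h3 := LinearMap.finrank_le_finrank_of_injective hFinj
  rw [Module.finrank_prod, Module.finrank_fintype_fun_eq_card] at h3
  have h4 : finrank K (LinearMap.range M.mulVecLin) + finrank K N =
      Fintype.card (S → ZMod 2) := by
    rw [← Module.finrank_fintype_fun_eq_card K]
    exact LinearMap.finrank_range_add_finrank_ker M.mulVecLin
  rw [Matrix.rank]
  omega

theorem approximable_E2 : Approximable K (1 / 2) E2 := by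
  classical
  apply Approximable.of_fintype
  intro F δ hδ
  let S : Finset ℕ := F.biUnion (fun g => (Multiplicative.toAdd g).support)
  refine ⟨S → ZMod 2, inferInstance, inferInstance, inferInstance,
    (transHom K S).toHomUnits, ?_, ?_⟩
  · intro g _ h _
    rw [map_mul, sub_self, Matrix.rank_zero]
    have : (0 : ℝ) < Fintype.card (S → ZMod 2) := by exact_mod_cast Fintype.card_pos
    simpa using mul_pos hδ this
  · intro g hg h hh hgh
    have hex : ∃ i, (Multiplicative.toAdd g) i ≠ (Multiplicative.toAdd h) i := by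
      by_contra hcon
      push Not at hcon
      exact hgh (Multiplicative.toAdd.injective (Finsupp.ext hcon))
    obtain ⟨i, hi⟩ := hex
    have hiS : i ∈ S := by
      by_contra hcon
      simp only [S, Finset.mem_biUnion, not_exists, not_and, Finsupp.mem_support_iff,
        not_not] at hcon
      exact hi ((hcon g hg).trans (hcon h hh).symm)
    have h1 := transHom_rank (K := K) S g h ⟨i, hiS⟩ hi
    have h2 : (Fintype.card (S → ZMod 2) : ℝ) ≤ 2 * ((transHom K S g - transHom K S h).rank : ℝ) := by
      exact_mod_cast h1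
    have h3 : (0 : ℝ) < Fintype.card (S → ZMod 2) := by exact_mod_cast Fintype.card_pos
    rw [MonoidHom.coe_toHomUnits, MonoidHom.coe_toHomUnits]
    nlinarith

end Y39.LinSofic
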