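import Mathlib

set_option autoImplicit false

/-! Automorphisms of the binary rooted tree, with vertices `List Bool`, children `x :: v`. -/

namespace Pool.Agent.Y39.BinTree

/-- the full automorphism group -/
def Aut : Subgroup (Equiv.Perm (List Bool)) where
  carrier := {g | ∀ w, (g w).length = w.length ∧ (g w).tail = g w.tail}
  mul_mem' {a b} ha hb w := by
    simp only [Equiv.Perm.mul_apply]
    exact ⟨(ha _).1.trans (hb _).1, by rw [(ha _).2, (hb _).2]⟩
  one_mem' w := by simp
  inv_mem' {a} ha w := by
    have e : ∀ y, a (a⁻¹ y) = y := fun y => a.apply_symm_apply y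
    have e' : ∀ y, a⁻¹ (a y) = y := fun y => a.symm_apply_apply y
    have h1 := ha (a⁻¹ w)
    rw [e] at h1
    refine ⟨h1.1.symm, ?_⟩
    have h2 := h1.2
    rw [h2, e']

theorem mem_Aut {g : Equiv.Perm (List Bool)} : g ∈ Aut ↔
    ∀ w, (g w).length = w.length ∧ (g w).tail = g w.tail := Iff.rfl

/-- the map with a given portrait -/
def pf (p : List Bool → Bool) : List Bool → List Bool
  | [] => []
  | x :: v => (xor x (p v)) :: pf p v

/-- its inverse -/
def pg (p : List Bool → Bool) : List Bool → List Bool
  | [] => []
  | y :: u => (xor y (p (pg p u))) :: pg p u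

theorem pg_pf (p : List Bool → Bool) (w : List Bool) : pg p (pf p w) = w := by
  induction w with
  | nil => rfl
  | cons x v ih => simp [pf, pg, ih]

theorem pf_pg (p : List Bool → Bool) (w : List Bool) : pf p (pg p w) = w := by
  induction w with
  | nil => rfl
  | cons x v ih => simp [pf, pg, ih]

theorem length_pf (p : List Bool → Bool) (w : List Bool) : (pf p w).length = w.length := by
  induction w with
  | nil => rfl
  | cons x v ih => simp [pf, ih]

/-- the automorphism with a given portrait -/
def port (p : List Bool → Bool) : Aut :=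
  ⟨⟨pf p, pg p, pg_pf p, pf_pg p⟩, by
    rw [mem_Aut]
    intro w
    refine ⟨length_pf p w, ?_⟩
    cases w <;> rfl⟩

theorem port_nil (p : List Bool → Bool) : port p • ([] : List Bool) = [] := rfl

theorem port_cons (p : List Bool → Bool) (x : Bool) (v : List Bool) :
    port p • (x :: v) = (xor x (p v)) :: (port p • v : List Bool) := rfl

theorem length_smul (g : Aut) (w : List Bool) : (g • w : List Bool).length = w.length :=
  (g.2 w).1

theorem tail_smul (g : Aut) (w : List Bool) : (g • w : List Bool).tail = g • w.tail :=
  (g.2 w).2

/-- the label of `g` at `v`. -/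
def lab (g : Aut) (v : List Bool) : Bool := (g • (false :: v) : List Bool).headD false

theorem smul_cons_false (g : Aut) (v : List Bool) :
    g • (false :: v) = lab g v :: (g • v : List Bool) := by
  have h1 := length_smul g (false :: v)
  have h2 := tail_smul g (false :: v)
  unfold lab
  cases h : (g • (false :: v) : List Bool) with
  | nil => rw [h] at h1; simp at h1
  | cons y u =>
    rw [h] at h2
    simp only [List.tail_cons] at h2
    rw [h2]
    rfl

theorem smul_cons (g : Aut) (x : Bool) (v : List Bool) :
    g • (x :: v) = xor x (lab g v) :: (g • v : List Bool) := by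
  cases x with
  | false => rw [smul_cons_false]; simp
  | true =>
    have h1 := length_smul g (true :: v)
    have h2 := tail_smul g (true :: v)
    cases h : (g • (true :: v) : List Bool) with
    | nil => rw [h] at h1; simp at h1
    | cons y u =>
      rw [h] at h2
      simp only [List.tail_cons] at h2
      rw [h2]
      congr 1
      by_contra hne
      have h3 : y = lab g v := by
        cases y <;> cases hl : lab g v <;> simp_all
      have h4 : g • (true :: v) = g • (false :: v) := by
        rw [h, smul_cons_false, h2, h3]
      have h5 := smul_left_cancel g h4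
      simp at h5

theorem lab_mul (g h : Aut) (v : List Bool) : lab (g * h) v = xor (lab h v) (lab g (h • v)) := by
  have h1 := smul_cons (g * h) false v
  rw [mul_smul, smul_cons h, smul_cons g] at h1
  simp only [List.cons.injEq] at h1
  have := h1.1
  simp only [Bool.false_bne] at this
  exact this.symm

theorem lab_port (p : List Bool → Bool) (v : List Bool) : lab (port p) v = p v := by
  have h1 := smul_cons (port p) false v
  rw [port_cons] at h1
  simp only [List.cons.injEq] at h1
  simpa using h1.1.symm

theorem ext_smul {g h : Aut} (H : ∀ v : List Bool, g • v = h • v) : g = h := by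
  apply Subtype.ext
  apply Equiv.ext
  exact H

/-- words of length `n` -/
abbrev Lev (n : ℕ) : Type := List.Vector Bool n

/-- action on a level -/
def levHom (n : ℕ) : Aut →* Equiv.Perm (Lev n) where
  toFun g :=
    { toFun := fun v => ⟨g • v.1, by rw [length_smul]; exact v.2⟩
      invFun := fun v => ⟨g⁻¹ • v.1, by rw [length_smul]; exact v.2⟩
      left_inv := fun v => by
        apply Subtype.ext
        exact inv_smul_smul g v.1
      right_inv := fun v => by
        apply Subtype.ext
        exact smul_inv_smul g v.1 }
  map_one' := by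
    ext v
    rfl
  map_mul' g h := by
    ext v
    rfl

/-- stabilizer of the level `n` -/
def St (n : ℕ) : Subgroup Aut := (levHom n).ker

instance (n : ℕ) : (St n).Normal := MonoidHom.normal_ker _

instance (n : ℕ) : (St n).FiniteIndex := Subgroup.finiteIndex_ker _

theorem mem_St {n : ℕ} {g : Aut} : g ∈ St n ↔ ∀ v : List Bool, v.length ≤ n → g • v = v := by
  constructor
  · intro h
    have h0 : ∀ v : List Bool, v.length = n → g • v = v := by
      intro v hv
      have h1 : levHom n g ⟨v, hv⟩ = ⟨v, hv⟩ := by
        have : levHom n g = 1 := h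
        rw [this]; rfl
      exact congrArg Subtype.val h1
    have key : ∀ k : ℕ, ∀ v : List Bool, v.length + k = n → g • v = v := by
      intro k
      induction k with
      | zero => intro v hv; exact h0 v hv
      | succ k ih =>
        intro v hv
        have h2 := ih (false :: v) (by rw [List.length_cons]; omega)
        rw [smul_cons] at h2
        simp only [List.cons.injEq] at h2
        exact h2.2
    intro v hv
    exact key (n - v.length) v (by omega)
  · intro h
    show levHom n g = 1
    ext1 v
    apply Subtype.ext
    exact h v.1 v.2.le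

theorem St_anti : Antitone St := by
  intro i j hij g hg
  rw [mem_St] at hg ⊢
  exact fun v hv => hg v (hv.trans hij)

theorem iInf_St : (⨅ i, St i) = ⊥ := by
  rw [eq_bot_iff]
  intro g hg
  rw [Subgroup.mem_iInf] at hg
  rw [Subgroup.mem_bot]
  apply ext_smul
  intro v
  rw [one_smul]
  exact mem_St.1 (hg v.length) v le_rfl

/-- transitivity -/
theorem exists_smul_eq (v : List Bool) : ∀ w : List Bool, v.length = w.length →
    ∃ g : Aut, g • v = w := by
  induction v with
  | nil =>
    intro w hw
    refine ⟨1, ?_⟩
    rw [one_smul]
    exact (List.length_eq_zero_iff.1 hw.symm).symm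
  | cons x v ih =>
    intro w hw
    cases w with
    | nil => simp at hw
    | cons y w =>
      obtain ⟨g, hg⟩ := ih w (by simpa using hw)
      by_cases h : xor x (lab g v) = y
      · refine ⟨g, ?_⟩
        rw [smul_cons, h, hg]
      · refine ⟨port (fun u => decide (u = w)) * g, ?_⟩
        rw [mul_smul, smul_cons, hg, port_cons]
        have h2 : (port (fun u => decide (u = w)) • w : List Bool) = w := by
          have : ∀ u : List Bool, u.length ≤ w.length →
              (port (fun u => decide (u = w)) • u : List Bool) = u := by
            intro u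
            induction u with
            | nil => intro _; rfl
            | cons z u ihu =>
              intro hz
              rw [port_cons, ihu (by simp at hz; omega)]
              have : u ≠ w := by
                rintro rfl
                simp at hz
              simp [this]
          exact this w le_rfl
        rw [h2]
        congr 1
        cases y <;> cases hh : xor x (lab g v) <;> simp_all

/-! ### Rigid stabilizers -/

/-- the ancestor of `w` at level `n` -/
def anc (n : ℕ) (w : List Bool) : List Bool := w.drop (w.length - n)

theorem anc_cons {n : ℕ} (x : Bool) (w : List Bool) (h : n ≤ w.length) :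
    anc n (x :: w) = anc n w := by
  unfold anc
  have : (x :: w).length - n = (w.length - n) + 1 := by rw [List.length_cons]; omega
  rw [this, List.drop_succ_cons]

theorem anc_self {n : ℕ} (w : List Bool) (h : w.length ≤ n) : anc n w = w := by
  unfold anc
  have : w.length - n = 0 := by omega
  rw [this, List.drop_zero]

theorem anc_length {n : ℕ} (w : List Bool) (h : n ≤ w.length) : (anc n w).length = n := by
  unfold anc
  rw [List.length_drop]
  omega

theorem iterate_tail (k : ℕ) (w : List Bool) : List.tail^[k] w = w.drop k := by
  induction k generalizing w with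
  | zero => rfl
  | succ k ih =>
    rw [Function.iterate_succ, Function.comp_apply, ih]
    cases w <;> simp

/-- The restriction of `g` to the subtrees below the vertices in `F`. -/
noncomputable def restr (n : ℕ) (g : Aut) (F : Set (List Bool)) : Aut := by
  classical
  exact port (fun w => if n ≤ w.length ∧ anc n w ∈ F then lab g w else false)

theorem restr_smul {n : ℕ} {g : Aut} (hg : g ∈ St n) (F : Set (List Bool)) (w : List Bool) :
    (n ≤ w.length ∧ anc n w ∈ F → restr n g F • w = g • w) ∧
    (¬ (n ≤ w.length ∧ anc n w ∈ F) → restr n g F • w = w) := by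
  classical
  rw [mem_St] at hg
  induction w with
  | nil =>
    have h1 : ∀ h : Aut, h • ([] : List Bool) = [] := by
      intro h
      exact List.length_eq_zero_iff.1 (length_smul h [])
    exact ⟨fun _ => by rw [h1, h1], fun _ => h1 _⟩
  | cons x w ih =>
    have e : restr n g F • (x :: w) =
        xor x (if n ≤ w.length ∧ anc n w ∈ F then lab g w else false) :: restr n g F • w := rfl
    constructor
    · rintro ⟨h1, h2⟩
      by_cases h3 : n ≤ w.length
      · rw [anc_cons x w h3] at h2
        rw [e, if_pos ⟨h3, h2⟩, ih.1 ⟨h3, h2⟩, smul_cons]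
      · have h4 : (x :: w).length = n := by
          have : (x :: w).length = w.length + 1 := List.length_cons
          omega
        rw [e, if_neg (by tauto), ih.2 (by tauto), hg (x :: w) h4.le]
        simp
    · intro h1
      have h2 : ¬ (n ≤ w.length ∧ anc n w ∈ F) := by
        rintro ⟨h3, h4⟩
        exact h1 ⟨by rw [List.length_cons]; omega, by rw [anc_cons x w h3]; exact h4⟩
      rw [e, if_neg h2, ih.2 h2]
      simp

/-- the generators of the rigid stabilizer of level `n` -/
def ristSet (n : ℕ) : Set Aut :=
  {g : Aut | ∃ v : List Bool, v.length = n ∧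
          ∀ w : List Bool, (∀ k : ℕ, List.tail^[k] w ≠ v) → g • w = w}

theorem anc_smul {n : ℕ} {g : Aut} (hg : g ∈ St n) (w : List Bool) (hw : n ≤ w.length) :
    anc n (g • w) = anc n w := by
  induction w with
  | nil =>
    have h1 : g • ([] : List Bool) = [] := List.length_eq_zero_iff.1 (length_smul g [])
    rw [h1]
  | cons x w ih =>
    by_cases h3 : n ≤ w.length
    · rw [smul_cons, anc_cons _ _ (by rw [length_smul]; exact h3), anc_cons _ _ h3, ih h3]
    · have h4 : (x :: w).length ≤ n := by
        have : (x :: w).length = w.length + 1 := List.length_cons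
        omega
      rw [mem_St.1 hg (x :: w) h4]

theorem restr_mem_St {n : ℕ} {g : Aut} (hg : g ∈ St n) (F : Set (List Bool)) :
    restr n g F ∈ St n := by
  rw [mem_St]
  intro v hv
  by_cases h : n ≤ v.length ∧ anc n v ∈ F
  · rw [(restr_smul hg F v).1 h]
    exact mem_St.1 hg v hv
  · exact (restr_smul hg F v).2 h

theorem St_le_closure (n : ℕ) : St n ≤ Subgroup.closure (ristSet n) := by
  classical
  intro g hg
  have key : ∀ F : Finset (Lev n), restr n g {v | ∃ u ∈ F, v = u.1} ∈
      Subgroup.closure (ristSet n) := by
    intro F
    induction F using Finset.induction_on with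
    | empty =>
      have : restr n g {v | ∃ u ∈ (∅ : Finset (Lev n)), v = u.1} = 1 := by
        apply ext_smul
        intro w
        rw [(restr_smul hg _ w).2 (by simp), one_smul]
      rw [this]
      exact Subgroup.one_mem _
    | insert a F ha ih =>
      have h1 : restr n g {v | ∃ u ∈ insert a F, v = u.1} =
          restr n g {v | ∃ u ∈ F, v = u.1} * restr n g {a.1} := by
        apply ext_smul
        intro w
        rw [mul_smul]
        by_cases hw : n ≤ w.length
        · by_cases h2 : anc n w = a.1
          · have h3 : anc n w ∈ {v | ∃ u ∈ insert a F, v = u.1} :=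
              ⟨a, Finset.mem_insert_self _ _, h2⟩
            have h4 : anc n w ∈ ({a.1} : Set (List Bool)) := h2
            rw [(restr_smul hg _ w).1 ⟨hw, h3⟩, (restr_smul hg _ w).1 ⟨hw, h4⟩]
            have h5 : anc n (g • w) ∉ {v | ∃ u ∈ F, v = u.1} := by
              rw [anc_smul hg w hw, h2]
              rintro ⟨u, hu, h6⟩
              exact ha (by rw [Subtype.ext h6]; exact hu)
            rw [(restr_smul hg _ (g • w)).2 (fun h => h5 h.2)]
          · have h4 : anc n w ∉ ({a.1} : Set (List Bool)) := h2
            rw [(restr_smul hg ({a.1} : Set (List Bool)) w).2 (fun h => h4 h.2)]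
            by_cases h5 : anc n w ∈ {v | ∃ u ∈ F, v = u.1}
            · have h6 : anc n w ∈ {v | ∃ u ∈ insert a F, v = u.1} := by
                obtain ⟨u, hu, h7⟩ := h5
                exact ⟨u, Finset.mem_insert_of_mem hu, h7⟩
              rw [(restr_smul hg _ w).1 ⟨hw, h6⟩, (restr_smul hg _ w).1 ⟨hw, h5⟩]
            · have h6 : anc n w ∉ {v | ∃ u ∈ insert a F, v = u.1} := by
                rintro ⟨u, hu, h7⟩
                rcases Finset.mem_insert.1 hu with rfl | hu
                · exact h2 h7
                · exact h5 ⟨u, hu, h7⟩
              rw [(restr_smul hg _ w).2 (fun h => h6 h.2), (restr_smul hg _ w).2 (fun h => h5 h.2)]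
        · rw [(restr_smul hg _ w).2 (fun h => hw h.1), (restr_smul hg _ w).2 (fun h => hw h.1),
            (restr_smul hg _ w).2 (fun h => hw h.1)]
      rw [h1]
      refine Subgroup.mul_mem _ ih (Subgroup.subset_closure ⟨a.1, a.2, fun w hw => ?_⟩)
      refine (restr_smul hg _ w).2 ?_
      rintro ⟨h2, h3⟩
      apply hw (w.length - n)
      rw [iterate_tail]
      exact h3
  have h2 : restr n g {v | ∃ u ∈ (Finset.univ : Finset (Lev n)), v = u.1} = g := by
    apply ext_smul
    intro w
    by_cases hw : n ≤ w.length
    · exact (restr_smul hg _ w).1 ⟨hw, ⟨⟨anc n w, anc_length w hw⟩, Finset.mem_univ _, rfl⟩⟩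
    · rw [(restr_smul hg _ w).2 (fun h => hw h.1)]
      exact (mem_St.1 hg w (by omega)).symm
  rw [← h2]
  exact key _

/-! ### The number of labels at a level, modulo two -/

/-- the sum of the labels of level `n`. -/
def sgn (n : ℕ) (g : Aut) : ZMod 2 := ∑ v : Lev n, if lab g v.1 then 1 else 0

theorem xor_cast (a b : Bool) : (if xor a b then (1 : ZMod 2) else 0) =
    (if a then 1 else 0) + (if b then 1 else 0) := by
  cases a <;> cases b <;> decide

theorem sgn_mul (n : ℕ) (g h : Aut) : sgn n (g * h) = sgn n g + sgn n h := by
  unfold sgn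
  have h1 : ∀ v : Lev n, (if lab (g * h) v.1 then (1 : ZMod 2) else 0) =
      (if lab h v.1 then 1 else 0) + (if lab g ((levHom n h v).1) then 1 else 0) := by
    intro v
    rw [lab_mul, xor_cast]
    rfl
  rw [Finset.sum_congr rfl (fun v _ => h1 v), Finset.sum_add_distrib, add_comm]
  congr 1
  exact Equiv.sum_comp (levHom n h) (fun v => if lab g v.1 then (1 : ZMod 2) else 0)

theorem sgn_one (n : ℕ) : sgn n 1 = 0 := by
  have h := sgn_mul n 1 1
  rw [mul_one] at h
  simpa using h

theorem sgn_inv (n : ℕ) (g : Aut) : sgn n g⁻¹ = sgn n g := by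
  have h := sgn_mul n g⁻¹ g
  rw [inv_mul_cancel, sgn_one] at h
  have h2 : sgn n g⁻¹ = - sgn n g := eq_neg_of_add_eq_zero_left h.symm
  rw [h2, ZMod.neg_eq_self_mod_two]

/-- The subgroup attached to an ultrafilter on the set of levels. -/
def KU (U : Ultrafilter ℕ) : Subgroup Aut where
  carrier := {g | ∀ᶠ n in (U : Filter ℕ), sgn n g = 0}
  mul_mem' {a b} ha hb := by
    filter_upwards [ha, hb] with n h1 h2
    rw [sgn_mul, h1, h2, add_zero]
  one_mem' := Filter.Eventually.of_forall fun n => sgn_one n
  inv_mem' {a} ha := by
    filter_upwards [ha] with n h1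
    rw [sgn_inv, h1]

theorem mem_KU {U : Ultrafilter ℕ} {g : Aut} : g ∈ KU U ↔ ∀ᶠ n in (U : Filter ℕ), sgn n g = 0 :=
  Iff.rfl

instance (U : Ultrafilter ℕ) : (KU U).Normal := by
  constructor
  intro g hg h
  rw [mem_KU] at hg ⊢
  filter_upwards [hg] with n h1
  rw [sgn_mul, sgn_mul, sgn_inv, h1, add_zero]
  exact CharTwo.add_self_eq_zero _

theorem zmod2_cases (a : ZMod 2) (h : a ≠ 0) : a = 1 := by
  revert h; revert a; decide

instance (U : Ultrafilter ℕ) : (KU U).FiniteIndex := by
  by_cases hU : KU U = ⊤
  · rw [hU]; infer_instance
  · obtain ⟨a, ha⟩ : ∃ a, a ∉ KU U := by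
      by_contra h
      push Not at h
      exact hU (by rw [eq_top_iff]; intro x _; exact h x)
    have h2 : (KU U).index = 2 := by
      rw [Subgroup.index_eq_two_iff]
      refine ⟨a, fun b => ?_⟩
      have ha' : ∀ᶠ n in (U : Filter ℕ), sgn n a = 1 := by
        have := Ultrafilter.eventually_not.2 ha
        filter_upwards [this] with n hn
        exact zmod2_cases _ hn
      by_cases hb : b ∈ KU U
      · refine Or.inr ⟨hb, ?_⟩
        intro h
        have h3 : ∀ᶠ n in (U : Filter ℕ), False := by
          filter_upwards [ha', hb, h] with n h1 h2 h3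
          rw [sgn_mul, h1, h2, zero_add] at h3
          exact one_ne_zero h3
        exact (U.neBot.ne (Filter.eventually_false_iff_eq_bot.1 h3)).elim
      · refine Or.inl ⟨?_, hb⟩
        have hb' : ∀ᶠ n in (U : Filter ℕ), sgn n b = 1 := by
          have := Ultrafilter.eventually_not.2 hb
          filter_upwards [this] with n hn
          exact zmod2_cases _ hn
        rw [mem_KU]
        filter_upwards [ha', hb'] with n h1 h2
        rw [sgn_mul, h1, h2]
        decide
    exact ⟨by rw [h2]; norm_num⟩

/-- elements with labels along one ray -/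
def ray (P : ℕ → Bool) : Aut :=
  port (fun v => decide (v = List.replicate v.length false) && P v.length)

theorem sgn_ray (P : ℕ → Bool) (n : ℕ) : sgn n (ray P) = if P n then 1 else 0 := by
  unfold sgn ray
  refine (Finset.sum_eq_single (⟨List.replicate n false, by simp⟩ : Lev n) ?_ ?_).trans ?_
  · intro b _ hb
    rw [lab_port]
    have h1 : ¬ b.1 = List.replicate b.1.length false := by
      intro h
      apply hb
      apply Subtype.ext
      rw [h]
      show List.replicate b.1.length false = List.replicate n false
      rw [b.2]
    rw [decide_eq_false h1]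
    rfl
  · intro h
    exact (h (Finset.mem_univ (α := Lev n) _)).elim
  · rw [lab_port]
    simp

theorem ray_mem_St (P : ℕ → Bool) (j : ℕ) (hP : ∀ n < j, P n = false) : ray P ∈ St j := by
  rw [mem_St]
  intro v
  induction v with
  | nil => intro _; rfl
  | cons x v ih =>
    intro hv
    rw [List.length_cons] at hv
    have e : ray P • (x :: v) = xor x (decide (v = List.replicate v.length false) && P v.length) ::
      (ray P • v : List Bool) := rfl
    rw [e, ih (by omega), hP _ (by omega)]
    simp

/-- the ultrafilters -/
noncomputable def UU (a : ℕ) : Ultrafilter ℕ := Ultrafilter.map (fun n => Nat.pair a n)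
  (Filter.hyperfilter ℕ)

theorem separated (a b : ℕ) (hab : a ≠ b) (j : ℕ) : ¬ (St j ⊓ KU (UU b) ≤ KU (UU a)) := by
  intro h
  have h1 : ray (fun n => decide ((Nat.unpair n).1 = a ∧ j ≤ n)) ∈ St j ⊓ KU (UU b) := by
    refine ⟨ray_mem_St _ _ ?_, ?_⟩
    · intro n hn
      simp only [decide_eq_false_iff_not]
      omega
    · show ∀ᶠ n in ((UU b : Ultrafilter ℕ) : Filter ℕ), _
      rw [UU, Ultrafilter.coe_map, Filter.eventually_map]
      refine Filter.Eventually.of_forall fun n => ?_
      rw [sgn_ray]
      simp [Nat.unpair_pair, Ne.symm hab]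
  have h2 := h h1
  rw [mem_KU, UU, Ultrafilter.coe_map, Filter.eventually_map] at h2
  have h3 : ∀ᶠ n in ((Filter.hyperfilter ℕ : Ultrafilter ℕ) : Filter ℕ), j ≤ n := by
    have : ∀ᶠ n in Filter.cofinite, j ≤ n := by
      rw [Nat.cofinite_eq_atTop]
      exact Filter.eventually_ge_atTop j
    exact Filter.Eventually.filter_mono Filter.hyperfilter_le_cofinite this
  have h4 : ∀ᶠ n in ((Filter.hyperfilter ℕ : Ultrafilter ℕ) : Filter ℕ), False := by
    filter_upwards [h2, h3] with n h5 h6
    rw [sgn_ray] at h5
    have h7 : j ≤ Nat.pair a n := h6.trans (Nat.right_le_pair a n)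
    simp [Nat.unpair_pair, h7] at h5
  exact ((Filter.hyperfilter ℕ).neBot.ne (Filter.eventually_false_iff_eq_bot.1 h4)).elim

end Pool.Agent.Y39.BinTree
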