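import Pool.Agent.Y39.Klein

set_option autoImplicit false

/-! Transport to words over the alphabet `{0, 1}`, the root at the head. -/

namespace Pool.Agent.Y39.BinTree

/-- the vertices of the binary tree as lists of numbers -/
abbrev W2 : Type := {l : List ℕ // ∀ i (h : i < l.length), l.get ⟨i, h⟩ < (fun _ => 2 : ℕ → ℕ) i}

/-- letter to number -/
def bn (b : Bool) : ℕ := if b then 1 else 0

/-- number to letter -/
def nb (n : ℕ) : Bool := decide (n = 1)

theorem nb_bn (b : Bool) : nb (bn b) = b := by cases b <;> rfl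

theorem bn_nb {n : ℕ} (h : n < 2) : bn (nb n) = n := by
  interval_cases n <;> rfl

theorem map_bn_nb {l : List ℕ} (h : ∀ x ∈ l, x < 2) : (l.map nb).map bn = l := by
  rw [List.map_map]
  conv_rhs => rw [← List.map_id l]
  apply List.map_congr_left
  intro x hx
  exact bn_nb (h x hx)

theorem map_nb_bn (l : List Bool) : (l.map bn).map nb = l := by
  rw [List.map_map]
  conv_rhs => rw [← List.map_id l]
  apply List.map_congr_left
  intro x _
  exact nb_bn x

theorem mem_lt (l : W2) : ∀ x ∈ l.1, x < 2 := by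
  intro x hx
  obtain ⟨i, hi⟩ := List.mem_iff_get.1 hx
  rw [← hi]
  exact l.2 i.1 i.2

/-- the bijection of the two vertex sets -/
def eW : W2 ≃ List Bool where
  toFun l := (l.1.map nb).reverse
  invFun l := ⟨(l.map bn).reverse, by
    intro i h
    have h1 : ∀ x ∈ (l.map bn).reverse, x < 2 := by
      intro x hx
      rw [List.mem_reverse, List.mem_map] at hx
      obtain ⟨b, -, rfl⟩ := hx
      cases b <;> simp [bn]
    exact h1 _ (List.get_mem _ _)⟩
  left_inv l := by
    apply Subtype.ext
    show ((l.1.map nb).reverse.map bn).reverse = l.1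
    rw [List.map_reverse, List.reverse_reverse, map_bn_nb (mem_lt l)]
  right_inv l := by
    show (((l.map bn).reverse).map nb).reverse = l
    rw [List.map_reverse, List.reverse_reverse, map_nb_bn]

theorem length_eW (l : W2) : (eW l).length = l.1.length := by
  show ((l.1.map nb).reverse).length = _
  simp

theorem prefix_iff (v w : W2) : v.1 <+: w.1 ↔ eW v <:+ eW w := by
  show v.1 <+: w.1 ↔ (v.1.map nb).reverse <:+ (w.1.map nb).reverse
  rw [List.reverse_suffix]
  constructor
  · exact fun h => h.map nb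
  · intro h
    have h1 := h.map bn
    rwa [map_bn_nb (mem_lt v), map_bn_nb (mem_lt w)] at h1

/-- the action on the new vertex set -/
def FW : Aut →* Equiv.Perm W2 where
  toFun g := (eW.trans g.1).trans eW.symm
  map_one' := by
    ext1 v
    show eW.symm ((1 : Aut).1 (eW v)) = v
    exact eW.symm_apply_apply v
  map_mul' g h := by
    ext1 v
    show eW.symm (g.1 (h.1 (eW v))) = eW.symm (g.1 (eW (eW.symm (h.1 (eW v)))))
    rw [Equiv.apply_symm_apply]

theorem FW_apply (g : Aut) (v : W2) : FW g v = eW.symm (g • eW v) := rfl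

theorem eW_FW (g : Aut) (v : W2) : eW (FW g v) = g • eW v := by
  rw [FW_apply, Equiv.apply_symm_apply]

theorem FW_inj : Function.Injective FW := by
  intro g h hgh
  apply ext_smul
  intro v
  have h1 := congrArg (fun σ : Equiv.Perm W2 => eW (σ (eW.symm v))) hgh
  simp only [eW_FW, Equiv.apply_symm_apply] at h1
  exact h1

theorem suffix_smul (g : Aut) (v w : List Bool) (h : v <:+ w) : g • v <:+ g • w := by
  induction w with
  | nil =>
    rw [List.suffix_nil] at h
    rw [h]
  | cons x w ih =>
    rw [List.suffix_cons_iff] at h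
    rcases h with rfl | h
    · exact List.suffix_refl _
    · rw [smul_cons]
      exact (ih h).trans (List.suffix_cons _ _)

theorem suffix_smul_iff (g : Aut) (v w : List Bool) : v <:+ w ↔ g • v <:+ g • w := by
  constructor
  · exact suffix_smul g v w
  · intro h
    have h1 := suffix_smul g⁻¹ _ _ h
    rwa [inv_smul_smul, inv_smul_smul] at h1

/-- the group, on the new vertex set -/
def LW : Subgroup (Equiv.Perm W2) := LB.map FW

theorem LW_pres (g : Equiv.Perm W2) (hg : g ∈ LW) (v w : W2) :
    (List.IsPrefix v.1 w.1 ↔ List.IsPrefix (g v).1 (g w).1) := by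
  obtain ⟨x, -, rfl⟩ := hg
  rw [prefix_iff, prefix_iff]
  show _ ↔ eW (FW x v) <:+ eW (FW x w)
  rw [eW_FW, eW_FW]
  exact suffix_smul_iff x _ _

theorem LW_trans (v w : W2) (h : v.1.length = w.1.length) : ∃ g ∈ LW, g v = w := by
  obtain ⟨g, hg, hgw⟩ := LB_trans (eW v) (eW w) (by rw [length_eW, length_eW, h])
  refine ⟨FW g, ⟨g, hg, rfl⟩, ?_⟩
  rw [FW_apply, hgw, Equiv.symm_apply_apply]

theorem LW_branch (n : ℕ) : ((Subgroup.closure
        {g : Equiv.Perm W2 |
          g ∈ LW ∧ ∃ u : W2,
            u.1.length = n ∧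
            ∀ v : W2,
              ¬ List.IsPrefix u.1 v.1 → g v = v}).subgroupOf LW).index ≠ 0 := by
  set S : Set (Equiv.Perm W2) := {g : Equiv.Perm W2 |
          g ∈ LW ∧ ∃ u : W2, u.1.length = n ∧ ∀ v : W2, ¬ List.IsPrefix u.1 v.1 → g v = v} with hS
  have h1 : (St (n + 2)).map FW ≤ Subgroup.closure S := by
    refine (Subgroup.map_mono (St_le_closure (n + 2))).trans ?_
    rw [MonoidHom.map_closure]
    apply Subgroup.closure_mono
    rintro _ ⟨x, hx, rfl⟩
    have hxS : x ∈ St (n + 2) := rist_sub _ hx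
    have hxL : x ∈ LB := St_le_LB (St_anti (by omega) hxS)
    obtain ⟨v₀, hv₀, hx2⟩ := hx
    refine ⟨⟨x, hxL, rfl⟩, eW.symm (v₀.drop 2), ?_, ?_⟩
    · rw [← length_eW, Equiv.apply_symm_apply, List.length_drop]
      omega
    · intro v hv
      rw [prefix_iff, Equiv.apply_symm_apply] at hv
      rw [FW_apply, hx2, Equiv.symm_apply_apply]
      intro k hk
      apply hv
      rw [iterate_tail] at hk
      rw [← hk]
      exact (List.drop_suffix _ _).trans (List.drop_suffix _ _)
  have h2 : ((St (n + 2)).map FW).relIndex LW ≠ 0 := by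
    rw [LW, ← Subgroup.relIndex_comap, Subgroup.comap_map_eq_self_of_injective FW_inj]
    have h4 : ((St (n + 2)).subgroupOf LB).FiniteIndex := inferInstance
    exact h4.index_ne_zero
  exact fun h3 => h2 (Subgroup.relIndex_eq_zero_of_le_left h1 h3)

/-- the isomorphism of the two forms of the group -/
noncomputable def eL : LB ≃* LW := LB.equivMapOfInjective FW FW_inj

theorem coe_eL (g : LB) : ((eL g : LW) : Equiv.Perm W2) = FW g := rfl

/-- the automorphism -/
noncomputable def phW : LW ≃* LW := (eL.symm.trans phi).trans eL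

theorem phW_apply (g : LB) : ((phW (eL g) : LW) : Equiv.Perm W2) = FW (ph g.1) := by
  unfold phW
  rw [MulEquiv.trans_apply, MulEquiv.trans_apply, MulEquiv.symm_apply_apply, coe_eL]
  rfl

theorem phW_not_conj (σ : Equiv.Perm W2)
    (h1 : ∀ v w : W2, (List.IsPrefix v.1 w.1 ↔ List.IsPrefix (σ v).1 (σ w).1))
    (h2 : ∀ g : LW, ((phW g : LW) : Equiv.Perm W2) = σ * (g : Equiv.Perm W2) * σ⁻¹) : False := by
  refine not_conj ((eW.symm.trans σ).trans eW) ?_ ?_
  · intro v w
    show v <:+ w ↔ eW (σ (eW.symm v)) <:+ eW (σ (eW.symm w))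
    rw [← prefix_iff, ← h1, prefix_iff, Equiv.apply_symm_apply, Equiv.apply_symm_apply]
  · intro g v
    have h3 := h2 (eL g)
    rw [phW_apply, coe_eL] at h3
    have h4 := congrArg (fun τ : Equiv.Perm W2 => eW (τ (σ (eW.symm v)))) h3
    simp only [Equiv.Perm.mul_apply, eW_FW] at h4
    have h5 : σ⁻¹ (σ (eW.symm v)) = eW.symm v := σ.symm_apply_apply _
    rw [h5] at h4
    show ph g.1 • eW (σ (eW.symm v)) = eW (σ (eW.symm ((g : Aut) • v)))
    rw [h4, FW_apply, Equiv.apply_symm_apply]

end Pool.Agent.Y39.BinTree
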