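import Pool.Agent.Y39.BinTree

set_option autoImplicit false

/-! A branch group of automorphisms of the binary tree, with an automorphism that is not induced by
a tree automorphism: the group of the automorphisms whose action on the second level belongs to the
four-group of the translations of `(Z/2)^2`. -/

namespace Pool.Agent.Y39.BinTree

theorem ext_lab {g h : Aut} (H : ∀ v : List Bool, lab g v = lab h v) : g = h := by
  apply ext_smul
  intro v
  induction v with
  | nil =>
    have h1 : ∀ k : Aut, k • ([] : List Bool) = [] := fun k =>
      List.length_eq_zero_iff.1 (length_smul k [])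
    rw [h1, h1]
  | cons x v ih => rw [smul_cons, smul_cons, ih, H]

theorem smul_nil (k : Aut) : k • ([] : List Bool) = [] :=
  List.length_eq_zero_iff.1 (length_smul k [])

theorem lab_one (v : List Bool) : lab (1 : Aut) v = false := rfl

theorem smul_single (k : Aut) (x : Bool) : k • [x] = [xor x (lab k [])] := by
  rw [smul_cons, smul_nil]

/-- the group -/
def LB : Subgroup Aut where
  carrier := {g | lab g [false] = lab g [true]}
  mul_mem' {a b} ha hb := by
    have ha' : lab a [false] = lab a [true] := ha
    have hb' : lab b [false] = lab b [true] := hb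
    show lab (a * b) [false] = lab (a * b) [true]
    rw [lab_mul, lab_mul, smul_single, smul_single, hb']
    cases lab b [] <;> simp [ha']
  one_mem' := rfl
  inv_mem' {a} ha := by
    have ha' : lab a [false] = lab a [true] := ha
    have h1 : ∀ x, lab a⁻¹ [x] = lab a [xor x (lab a⁻¹ [])] := by
      intro x
      have h2 := lab_mul a a⁻¹ [x]
      rw [mul_inv_cancel, lab_one, smul_single] at h2
      revert h2
      cases lab a⁻¹ [x] <;> cases lab a [xor x (lab a⁻¹ [])] <;> simp
    show lab a⁻¹ [false] = lab a⁻¹ [true]
    rw [h1, h1]
    cases lab a⁻¹ [] <;> simp [ha']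

theorem mem_LB {g : Aut} : g ∈ LB ↔ lab g [false] = lab g [true] := Iff.rfl

theorem LB_lab {g : Aut} (hg : g ∈ LB) (x : Bool) : lab g [x] = lab g [false] := by
  cases x with
  | false => rfl
  | true => exact hg.symm

theorem St_le_LB : St 2 ≤ LB := by
  intro g hg
  rw [mem_St] at hg
  have h1 : ∀ x, lab g [x] = false := by
    intro x
    have h2 := hg [false, x] (by simp)
    rw [smul_cons] at h2
    simp only [List.cons.injEq] at h2
    simpa using h2.1
  show lab g [false] = lab g [true]
  rw [h1, h1]

/-- transitivity of the group -/
theorem LB_trans (v : List Bool) : ∀ w : List Bool, v.length = w.length →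
    ∃ g ∈ LB, g • v = w := by
  -- first move the first two letters by a translation, then use `St 2`-like elements
  induction v with
  | nil =>
    intro w hw
    refine ⟨1, LB.one_mem, ?_⟩
    rw [one_smul]
    exact (List.length_eq_zero_iff.1 hw.symm).symm
  | cons x v ih =>
    intro w hw
    cases w with
    | nil => simp at hw
    | cons y w =>
      obtain ⟨g, hg, hgw⟩ := ih w (by simpa using hw)
      by_cases h : xor x (lab g v) = y
      · refine ⟨g, hg, ?_⟩
        rw [smul_cons, h, hgw]
      · -- compose with a flip of all the vertices of the level of `w`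
        let k : Aut := port (fun u => decide (u.length = w.length))
        have hk : k ∈ LB := by
          show lab k [false] = lab k [true]
          rw [lab_port, lab_port]
          rfl
        have hkw : ∀ u : List Bool, u.length ≤ w.length → k • u = u := by
          intro u
          induction u with
          | nil => intro _; rfl
          | cons z u ihu =>
            intro hz
            rw [List.length_cons] at hz
            have e : k • (z :: u) = xor z (decide (u.length = w.length)) :: (k • u : List Bool) :=
              rfl
            rw [e, ihu (by omega)]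
            have : ¬ u.length = w.length := by omega
            simp [this]
        refine ⟨k * g, LB.mul_mem hk hg, ?_⟩
        have e : k • (xor x (lab g v) :: w) = xor (xor x (lab g v)) (decide (w.length = w.length)) ::
          (k • w : List Bool) := rfl
        rw [mul_smul, smul_cons, hgw, e, hkw w le_rfl]
        congr 1
        cases y <;> cases hh : xor x (lab g v) <;> simp_all

/-- exchange of the two letters next to the root -/
def tau : List Bool → List Bool
  | [] => []
  | [x] => [x]
  | [y, x] => [x, y]
  | z :: y :: x :: w => z :: tau (y :: x :: w)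

theorem tau_cons (z : Bool) (v : List Bool) (hv : 2 ≤ v.length) : tau (z :: v) = z :: tau v := by
  match v, hv with
  | y :: x :: w, _ => rfl

theorem length_tau (v : List Bool) : (tau v).length = v.length := by
  induction v with
  | nil => rfl
  | cons z v ih =>
    by_cases hv : 2 ≤ v.length
    · rw [tau_cons z v hv, List.length_cons, List.length_cons, ih]
    · match v, hv with
      | [], _ => rfl
      | [x], _ => rfl
      | y :: x :: w, h => exact absurd (by simp) h

theorem tau_tau (v : List Bool) : tau (tau v) = v := by
  induction v with
  | nil => rfl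
  | cons z v ih =>
    by_cases hv : 2 ≤ v.length
    · rw [tau_cons z v hv, tau_cons z _ (by rw [length_tau]; exact hv), ih]
    · match v, hv with
      | [], _ => rfl
      | [x], _ => rfl
      | y :: x :: w, h => exact absurd (by simp) h

/-- the portrait of the image -/
def sp (g : Aut) : List Bool → Bool
  | [] => lab g [false]
  | [_] => lab g []
  | y :: x :: w => lab g (tau (y :: x :: w))

theorem sp_of_le (g : Aut) (v : List Bool) (hv : 2 ≤ v.length) : sp g v = lab g (tau v) := by
  match v, hv with
  | y :: x :: w, _ => rfl

/-- the image of `g` -/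
def ph (g : Aut) : Aut := port (sp g)

theorem lab_ph (g : Aut) (v : List Bool) : lab (ph g) v = sp g v := lab_port _ _

theorem ph_mem (g : Aut) : ph g ∈ LB := by
  show lab (ph g) [false] = lab (ph g) [true]
  rw [lab_ph, lab_ph]
  rfl

theorem ph_ph {g : Aut} (hg : g ∈ LB) : ph (ph g) = g := by
  apply ext_lab
  intro v
  rw [lab_ph]
  match v with
  | [] => exact lab_ph g [false]
  | [x] =>
    show lab (ph g) [] = _
    rw [lab_ph]
    show lab g [false] = _
    rw [LB_lab hg x]
  | y :: x :: w =>
    rw [sp_of_le _ _ (by simp), lab_ph, sp_of_le _ _ (by rw [length_tau]; simp), tau_tau]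

theorem ph_smul {g : Aut} (hg : g ∈ LB) (v : List Bool) (hv : 2 ≤ v.length) :
    ph g • v = tau (g • tau v) := by
  induction v with
  | nil => simp at hv
  | cons z v ih =>
    by_cases h2 : 2 ≤ v.length
    · rw [smul_cons, ih h2, lab_ph, sp_of_le _ _ h2, tau_cons z v h2, smul_cons,
        tau_cons _ _ (by rw [length_smul, length_tau]; exact h2)]
    · match v, hv, h2 with
      | [x], _, _ =>
        show ph g • [z, x] = tau (g • [x, z])
        rw [smul_cons, smul_single, lab_ph, lab_ph, smul_cons, smul_single]
        show [xor z (lab g []), xor x (lab g [false])] =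
          [xor z (lab g []), xor x (lab g [z])]
        rw [LB_lab hg z]
      | y :: x :: w, _, h => exact absurd (by simp) h

theorem ph_mul {g h : Aut} (hg : g ∈ LB) (hh : h ∈ LB) : ph (g * h) = ph g * ph h := by
  apply ext_lab
  intro v
  rw [lab_ph, lab_mul, lab_ph, lab_ph]
  match v with
  | [] =>
    show lab (g * h) [false] = xor (lab h [false]) (sp g (ph h • []))
    rw [smul_nil, lab_mul, smul_single, LB_lab hg]
    rfl
  | [x] =>
    show lab (g * h) [] = xor (lab h []) (sp g (ph h • [x]))
    rw [smul_single, lab_mul, smul_nil]
    rfl
  | y :: x :: w =>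
    have h2 : 2 ≤ (y :: x :: w).length := by simp
    rw [sp_of_le _ _ h2, sp_of_le _ _ h2, ph_smul hh _ h2, sp_of_le, tau_tau, lab_mul]
    rw [length_tau, length_smul, length_tau]
    exact h2

/-- the automorphism of `LB` -/
def phi : LB ≃* LB where
  toFun g := ⟨ph g.1, ph_mem g.1⟩
  invFun g := ⟨ph g.1, ph_mem g.1⟩
  left_inv g := Subtype.ext (ph_ph g.2)
  right_inv g := Subtype.ext (ph_ph g.2)
  map_mul' g h := Subtype.ext (ph_mul g.2 h.2)

/-- the flip below `u` -/
def fl (u : List Bool) : Aut := port (fun v => decide (v = u))

theorem fl_smul (u v : List Bool) : fl u • v ≠ v ↔ u <:+ v ∧ u ≠ v := by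
  induction v with
  | nil =>
    have e : fl u • ([] : List Bool) = [] := rfl
    rw [e]
    simp only [ne_eq, not_true_eq_false, List.suffix_nil, false_iff, not_and, not_not]
    exact fun h => h
  | cons x v ih =>
    have e : fl u • (x :: v) = xor x (decide (v = u)) :: (fl u • v : List Bool) := rfl
    rw [e]
    by_cases h : v = u
    · subst h
      have h1 : fl v • v = v := by
        by_contra h2
        exact (ih.1 h2).2 rfl
      rw [h1]
      simp only [decide_true, Bool.bne_true, ne_eq, List.cons.injEq, Bool.not_eq_self, and_true,
        not_false_eq_true, true_iff]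
      refine ⟨List.suffix_cons x v, fun h3 => ?_⟩
      have := congrArg List.length h3
      simp at this
    · have h3 : decide (v = u) = false := decide_eq_false h
      rw [h3, Bool.xor_false]
      constructor
      · intro h4
        have h5 : fl u • v ≠ v := fun h6 => h4 (by rw [h6])
        obtain ⟨h6, h7⟩ := ih.1 h5
        refine ⟨h6.trans (List.suffix_cons x v), fun h8 => ?_⟩
        have h9 := h6.length_le
        rw [h8] at h9
        simp at h9
      · rintro ⟨h4, h5⟩ h6
        rw [List.suffix_cons_iff] at h4
        rcases h4 with h4 | h4
        · exact h5 h4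
        · simp only [List.cons.injEq, true_and] at h6
          exact (ih.2 ⟨h4, fun h7 => h h7.symm⟩) h6

theorem fl_mem (u : List Bool) (hu : 2 ≤ u.length) : fl u ∈ LB := by
  show lab (fl u) [false] = lab (fl u) [true]
  have h : ∀ x : Bool, ¬ [x] = u := by
    rintro x rfl
    simp at hu
  rw [fl, lab_port, lab_port, decide_eq_false (h _), decide_eq_false (h _)]

theorem ph_fl (u : List Bool) (hu : 2 ≤ u.length) : ph (fl u) = fl (tau u) := by
  apply ext_lab
  intro v
  rw [lab_ph, fl, fl, lab_port]
  have h : ∀ w : List Bool, w.length < 2 → ¬ w = u := by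
    rintro w hw rfl
    omega
  have h' : ∀ w : List Bool, w.length < 2 → ¬ w = tau u := by
    rintro w hw rfl
    rw [length_tau] at hw
    omega
  match v with
  | [] =>
    show lab (port _) [false] = _
    rw [lab_port, decide_eq_false (h _ (by simp)), decide_eq_false (h' _ (by simp))]
  | [x] =>
    show lab (port _) [] = _
    rw [lab_port, decide_eq_false (h _ (by simp)), decide_eq_false (h' _ (by simp))]
  | y :: x :: w =>
    rw [sp_of_le _ _ (by simp), lab_port]
    congr 1
    apply propext
    constructor
    · intro h
      rw [← h, tau_tau]
    · intro h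
      rw [h, tau_tau]

/-- `phi` is not the conjugation by an automorphism of the ordered set of the vertices. -/
theorem not_conj (σ : Equiv.Perm (List Bool)) (hσ : ∀ v w, v <:+ w ↔ σ v <:+ σ w)
    (h : ∀ g : LB, ∀ v : List Bool, (ph g.1) • (σ v) = σ ((g : Aut) • v)) : False := by
  -- the two supports
  have key : ∀ u : List Bool, 2 ≤ u.length → ∀ v, (u <:+ v ∧ u ≠ v) →
      (tau u <:+ σ v ∧ tau u ≠ σ v) := by
    intro u hu v hv
    rw [← fl_smul, ← ph_fl u hu, h ⟨fl u, fl_mem u hu⟩ v]
    intro h1
    exact (fl_smul u v).2 hv (σ.injective h1)
  have h1 := key [true, false] (by simp) [true, true, false]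
    ⟨List.suffix_cons _ _, by simp⟩
  have h2 := key [false, false] (by simp) [true, false, false]
    ⟨List.suffix_cons _ _, by simp⟩
  have e1 : tau [true, false] = [false, true] := rfl
  have e2 : tau [false, false] = [false, false] := rfl
  rw [e1] at h1
  rw [e2] at h2
  have h3 : σ [false] <:+ σ [true, true, false] :=
    (hσ _ _).1 ⟨[true, true], rfl⟩
  have h4 : σ [false] <:+ σ [true, false, false] :=
    (hσ _ _).1 ⟨[true, false], rfl⟩
  have h5 : [true] <:+ σ [true, true, false] := List.IsSuffix.trans ⟨[false], rfl⟩ h1.1
  have h6 : [false] <:+ σ [true, false, false] := List.IsSuffix.trans ⟨[false], rfl⟩ h2.1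
  have h7 : σ [false] = [] := by
    by_contra hne
    have h8 : [true] <:+ σ [false] := List.suffix_of_suffix_length_le h5 h3 (by
      have := List.length_pos_iff.2 hne
      rw [List.length_singleton]
      exact this)
    have h9 : [false] <:+ σ [false] := List.suffix_of_suffix_length_le h6 h4 (by
      have := List.length_pos_iff.2 hne
      rw [List.length_singleton]
      exact this)
    have h10 := List.suffix_of_suffix_length_le h8 h9 (by simp)
    rw [List.suffix_cons_iff] at h10
    rcases h10 with h10 | h10
    · simp at h10
    · simp at h10
  have h8 : σ [] = [] := by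
    have h9 : σ [] <:+ σ (σ.symm []) := (hσ _ _).1 (List.nil_suffix)
    rw [Equiv.apply_symm_apply] at h9
    exact List.suffix_nil.1 h9
  rw [← h8] at h7
  have := σ.injective h7
  simp at this

theorem rist_sub (n : ℕ) : ristSet n ⊆ St n := by
  rintro g ⟨v, hv, hg⟩
  show g ∈ St n
  rw [mem_St]
  have h1 : ∀ w : List Bool, w.length ≤ n → w ≠ v → g • w = w := by
    intro w hw hne
    apply hg
    intro k hk
    rw [iterate_tail] at hk
    have h2 := congrArg List.length hk
    rw [List.length_drop] at h2
    by_cases hk0 : k = 0
    · subst hk0
      rw [List.drop_zero] at hk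
      exact hne hk
    · have h3 : w.length = 0 := by omega
      have h4 : v.length = 0 := by omega
      apply hne
      rw [List.length_eq_zero_iff.1 h3, List.length_eq_zero_iff.1 h4]
  intro w hw
  by_cases hne : w = v
  · subst hne
    by_contra h2
    have h3 := h1 (g • w) (by rw [length_smul]; exact hw) h2
    exact h2 (smul_left_cancel g h3)
  · exact h1 w hw hne

end Pool.Agent.Y39.BinTree
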