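import Mathlib

/-! The dimension of the space of intertwiners of two endomorphisms of finite dimensional vector
spaces over an algebraically closed field, in terms of bounds on the multiplicities of the
eigenvalues. -/

open Module

namespace Y39.LinSofic

universe u

/-- Linear maps intertwining `C` and `A`. -/
def inter {L V W : Type*} [Field L] [AddCommGroup V] [Module L V] [AddCommGroup W] [Module L W]
    (C : Module.End L V) (A : Module.End L W) : Submodule L (V →ₗ[L] W) where
  carrier := {X | ∀ v, A (X v) = X (C v)}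
  add_mem' := by
    intro X Y hX hY v
    simp only [Set.mem_ofPred_eq] at hX hY
    simp [hX v, hY v]
  zero_mem' := by
    intro v
    simp
  smul_mem' := by
    intro c X hX v
    simp only [Set.mem_ofPred_eq] at hX
    simp [hX v]

theorem mem_inter {L V W : Type*} [Field L] [AddCommGroup V] [Module L V] [AddCommGroup W]
    [Module L W] {C : Module.End L V} {A : Module.End L W} {X : V →ₗ[L] W} :
    X ∈ inter C A ↔ ∀ v, A (X v) = X (C v) := Iff.rfl

section Step

variable {L V W : Type*} [Field L] [AddCommGroup V] [Module L V] [AddCommGroup W] [Module L W]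

/-- `C - μ`. -/
def shift (C : Module.End L V) (μ : L) : Module.End L V := C - μ • 1

@[simp] theorem shift_apply (C : Module.End L V) (μ : L) (v : V) :
    shift C μ v = C v - μ • v := by
  simp [shift]

theorem range_inv (C : Module.End L V) (μ : L) :
    ∀ v ∈ LinearMap.range (shift C μ), C v ∈ LinearMap.range (shift C μ) := by
  rintro _ ⟨u, rfl⟩
  exact ⟨C u, by simp⟩

/-- The endomorphism induced by `C` on the range of `C - μ`. -/
def sub (C : Module.End L V) (μ : L) : Module.End L (LinearMap.range (shift C μ)) :=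
  C.restrict (range_inv C μ)

@[simp] theorem sub_coe (C : Module.End L V) (μ : L) (v : LinearMap.range (shift C μ)) :
    ((sub C μ v : LinearMap.range (shift C μ)) : V) = C v := rfl

theorem inter_range {C : Module.End L V} {A : Module.End L W} (μ : L) {X : V →ₗ[L] W}
    (hX : X ∈ inter C A) :
    ∀ v ∈ LinearMap.range (shift C μ), X v ∈ LinearMap.range (shift A μ) := by
  rintro _ ⟨u, rfl⟩
  refine ⟨X u, ?_⟩
  have h := mem_inter.1 hX u
  simp [h]

/-- Restriction of intertwiners to the ranges of `C - μ` and `A - μ`. -/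
def res (C : Module.End L V) (A : Module.End L W) (μ : L) :
    inter C A →ₗ[L] inter (sub C μ) (sub A μ) where
  toFun X := ⟨X.1.restrict (inter_range μ X.2), by
    rw [mem_inter]
    intro v
    ext
    simpa using mem_inter.1 X.2 v⟩
  map_add' X Y := by
    ext v
    simp
  map_smul' c X := by
    ext v
    simp

theorem res_coe (C : Module.End L V) (A : Module.End L W) (μ : L) (X : inter C A)
    (v : LinearMap.range (shift C μ)) :
    (((res C A μ X).1 v : LinearMap.range (shift A μ)) : W) = X.1 v := rfl

/-- The kernel of the restriction map. -/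
def kerMap (C : Module.End L V) (A : Module.End L W) (μ : L) :
    LinearMap.ker (res C A μ) →ₗ[L] ((V ⧸ LinearMap.range (shift C μ)) →ₗ[L]
      LinearMap.ker (shift A μ)) where
  toFun X := (LinearMap.range (shift C μ)).liftQ
    (LinearMap.codRestrict (LinearMap.ker (shift A μ)) X.1.1 (by
      intro v
      have h := congrArg (fun Y => ((Y.1 ⟨shift C μ v, ⟨v, rfl⟩⟩ :
        LinearMap.range (shift A μ)) : W)) (LinearMap.mem_ker.1 X.2)
      simp only [res_coe] at h
      have h2 := mem_inter.1 X.1.2 v
      rw [LinearMap.mem_ker, shift_apply, h2, ← map_smul, ← map_sub]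
      simpa using h)) (by
      rintro v ⟨u, rfl⟩
      rw [LinearMap.mem_ker]
      ext
      have h := congrArg (fun Y => ((Y.1 ⟨shift C μ u, ⟨u, rfl⟩⟩ :
        LinearMap.range (shift A μ)) : W)) (LinearMap.mem_ker.1 X.2)
      rw [res_coe] at h
      exact h)
  map_add' X Y := by
    ext v
    simp
  map_smul' c X := by
    ext v
    simp

theorem kerMap_injective (C : Module.End L V) (A : Module.End L W) (μ : L) :
    Function.Injective (kerMap C A μ) := by
  intro X Y h
  ext v
  have h2 := congrArg (fun Z => ((Z (Submodule.Quotient.mk v) :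
    LinearMap.ker (shift A μ)) : W)) h
  simpa [kerMap] using h2

theorem finrank_inter_le [FiniteDimensional L V] [FiniteDimensional L W]
    (C : Module.End L V) (A : Module.End L W) (μ : L) :
    finrank L (inter C A) ≤ finrank L (LinearMap.ker (shift C μ)) *
      finrank L (LinearMap.ker (shift A μ)) + finrank L (inter (sub C μ) (sub A μ)) := by
  have h1 := LinearMap.finrank_range_add_finrank_ker (K := L) (V := inter C A)
    (V₂ := inter (sub C μ) (sub A μ)) (res C A μ)
  have h2 : finrank L (LinearMap.range (res C A μ)) ≤ finrank L (inter (sub C μ) (sub A μ)) :=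
    Submodule.finrank_le _
  have h3 := LinearMap.finrank_le_finrank_of_injective (kerMap_injective C A μ)
  rw [Module.finrank_linearMap] at h3
  have h4 : finrank L (V ⧸ LinearMap.range (shift C μ)) = finrank L (LinearMap.ker (shift C μ)) := by
    have h5 := Submodule.finrank_quotient_add_finrank (LinearMap.range (shift C μ))
    have h6 := LinearMap.finrank_range_add_finrank_ker (shift C μ)
    omega
  rw [h4] at h3
  omega

theorem finrank_ker_sub_le [FiniteDimensional L V] (C : Module.End L V) (μ ν : L) :
    finrank L (LinearMap.ker (shift (sub C μ) ν)) ≤ finrank L (LinearMap.ker (shift C ν)) := by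
  let f : LinearMap.ker (shift (sub C μ) ν) →ₗ[L] LinearMap.ker (shift C ν) :=
    LinearMap.codRestrict _ ((LinearMap.range (shift C μ)).subtype.comp
      (LinearMap.ker (shift (sub C μ) ν)).subtype) (by
        intro v
        have h0 : shift (sub C μ) ν v.1 = 0 := LinearMap.mem_ker.1 v.2
        have h : ((shift (sub C μ) ν v.1 : LinearMap.range (shift C μ)) : V) = 0 := by
          rw [h0]
          rfl
        rw [LinearMap.mem_ker, shift_apply]
        rw [shift_apply] at h
        exact h)
  have hf : Function.Injective f := by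
    intro v w h
    have h2 := congrArg (fun Y => ((Y : LinearMap.ker (shift C ν)) : V)) h
    ext
    simpa [f] using h2
  exact LinearMap.finrank_le_finrank_of_injective hf

end Step

theorem inter_bound {L : Type*} [Field L] [IsAlgClosed L] (r q : ℕ) : ∀ (n : ℕ) (V W : Type u)
    [AddCommGroup V] [Module L V] [FiniteDimensional L V]
    [AddCommGroup W] [Module L W] [FiniteDimensional L W]
    (_ : finrank L V = n) (C : Module.End L V) (A : Module.End L W)
    (_ : ∀ μ, finrank L (LinearMap.ker (shift C μ)) ≤ r)
    (_ : ∀ μ, finrank L (LinearMap.ker (shift A μ)) ≤ q),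
    ∃ (k : ℕ) (x y : Fin k → ℕ), (∀ i, x i ≤ r) ∧ (∀ i, y i ≤ q) ∧
      ∑ i, x i = finrank L V ∧ ∑ i, y i ≤ finrank L W ∧
      finrank L (inter C A) ≤ ∑ i, x i * y i := by
  intro n
  induction n using Nat.strong_induction_on with
  | _ n ih =>
  intro V W _ _ _ _ _ _ hn C A hC hA
  rcases Nat.eq_zero_or_pos n with h0 | hpos
  · refine ⟨0, Fin.elim0, Fin.elim0, fun i => i.elim0, fun i => i.elim0, ?_, ?_, ?_⟩
    · simp [hn, h0]
    · simp
    · have h1 : finrank L (inter C A) ≤ finrank L (V →ₗ[L] W) := Submodule.finrank_le _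
      rw [Module.finrank_linearMap, hn, h0] at h1
      simpa using h1
  · have : Nontrivial V := by
      apply Module.nontrivial_of_finrank_pos (R := L)
      omega
    obtain ⟨μ, hμ⟩ := Module.End.exists_eigenvalue C
    have hker : 0 < finrank L (LinearMap.ker (shift C μ)) := by
      obtain ⟨v, hv⟩ := hμ.exists_hasEigenvector
      have : Nontrivial (LinearMap.ker (shift C μ)) := by
        refine ⟨⟨⟨v, ?_⟩, 0, ?_⟩⟩
        · rw [LinearMap.mem_ker, shift_apply, hv.apply_eq_smul, sub_self]
        · intro h
          exact hv.2 (congrArg Subtype.val h)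
      exact Module.finrank_pos
    have hrk := LinearMap.finrank_range_add_finrank_ker (shift C μ)
    have hrkA := LinearMap.finrank_range_add_finrank_ker (shift A μ)
    obtain ⟨k, x, y, hx, hy, hsx, hsy, hle⟩ := ih (finrank L (LinearMap.range (shift C μ)))
      (by omega) (LinearMap.range (shift C μ)) (LinearMap.range (shift A μ)) rfl (sub C μ)
      (sub A μ) (fun ν => (finrank_ker_sub_le C μ ν).trans (hC ν))
      (fun ν => (finrank_ker_sub_le A μ ν).trans (hA ν))
    refine ⟨k + 1, Fin.cons (finrank L (LinearMap.ker (shift C μ))) x,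
      Fin.cons (finrank L (LinearMap.ker (shift A μ))) y, ?_, ?_, ?_, ?_, ?_⟩
    · intro i
      refine Fin.cases ?_ (fun j => ?_) i
      · simpa using hC μ
      · simpa using hx j
    · intro i
      refine Fin.cases ?_ (fun j => ?_) i
      · simpa using hA μ
      · simpa using hy j
    · rw [Fin.sum_univ_succ]
      simp only [Fin.cons_zero, Fin.cons_succ]
      omega
    · rw [Fin.sum_univ_succ]
      simp only [Fin.cons_zero, Fin.cons_succ]
      omega
    · rw [Fin.sum_univ_succ]
      simp only [Fin.cons_zero, Fin.cons_succ]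
      have := finrank_inter_le C A μ
      omega

/-- The weight inequality. -/
theorem weight_ineq (k : ℕ) (x y : Fin k → ℝ) (a b s t : ℝ) (hs : 0 ≤ s) (ht : 0 ≤ t)
    (ha : 0 ≤ a) (hb : 0 ≤ b)
    (hx0 : ∀ i, 0 ≤ x i) (hy0 : ∀ i, 0 ≤ y i)
    (hx : ∀ i, x i ≤ (1 + s) * b / 2) (hy : ∀ i, y i ≤ (1 + t) * a / 2)
    (hsx : ∑ i, x i = b) (hsy : ∑ i, y i ≤ a) :
    ∑ i, x i * y i ≤ a * b * (1 + s * t) / 2 := by
  rcases Nat.eq_zero_or_pos k with h0 | hpos
  · subst h0
    simp only [Finset.univ_eq_empty, Finset.sum_empty]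
    positivity
  have : Nonempty (Fin k) := ⟨⟨0, hpos⟩⟩
  obtain ⟨j, -, hj⟩ := Finset.exists_max_image (Finset.univ : Finset (Fin k)) y ⟨⟨0, hpos⟩, by simp⟩
  have hsplit : ∀ f : Fin k → ℝ, ∑ i, f i = f j + ∑ i ∈ Finset.univ.erase j, f i := by
    intro f
    rw [Finset.add_sum_erase _ _ (Finset.mem_univ j)]
  rw [hsplit x] at hsx
  rw [hsplit y] at hsy
  rw [hsplit]
  set Y := y j with hY
  have hother : ∀ i ∈ Finset.univ.erase j, y i ≤ min Y (a - Y) := by
    intro i hi
    refine le_min (hj i (Finset.mem_univ i)) ?_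
    have h1 : y i ≤ ∑ i ∈ Finset.univ.erase j, y i :=
      Finset.single_le_sum (fun l _ => hy0 l) hi
    linarith
  have hsum : ∑ i ∈ Finset.univ.erase j, x i * y i ≤ (b - x j) * min Y (a - Y) := by
    have h1 : ∑ i ∈ Finset.univ.erase j, x i * y i ≤
        ∑ i ∈ Finset.univ.erase j, x i * min Y (a - Y) :=
      Finset.sum_le_sum fun i hi => mul_le_mul_of_nonneg_left (hother i hi) (hx0 i)
    rw [← Finset.sum_mul] at h1
    have h2 : ∑ i ∈ Finset.univ.erase j, x i = b - x j := by linarith
    rwa [h2] at h1
  have hYn : 0 ≤ Y := hy0 j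
  have hYa : Y ≤ a := by
    have : 0 ≤ ∑ i ∈ Finset.univ.erase j, y i := Finset.sum_nonneg fun i _ => hy0 i
    linarith
  have hxj := hx j
  have hxj0 := hx0 j
  have hyj := hy j
  rw [← hY] at hyj
  rcases le_total Y (a / 2) with hc | hc
  · have hmin : min Y (a - Y) = Y := min_eq_left (by linarith)
    rw [hmin] at hsum
    have h3 : b * Y ≤ b * (a / 2) := mul_le_mul_of_nonneg_left hc hb
    have h4 : 0 ≤ a * b * (s * t) := by positivity
    nlinarith
  · have hmin : min Y (a - Y) = a - Y := min_eq_right (by linarith)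
    rw [hmin] at hsum
    -- x_j Y + (b - x_j)(a - Y) is nondecreasing in x_j
    have h5 : x j * (2 * Y - a) ≤ (1 + s) * b / 2 * (2 * Y - a) :=
      mul_le_mul_of_nonneg_right hxj (by linarith)
    have h6 : s * b * Y ≤ s * b * ((1 + t) * a / 2) :=
      mul_le_mul_of_nonneg_left hyj (by positivity)
    nlinarith

end Y39.LinSofic
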