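import Mathlib

/-! Elementary facts on ranks of matrices, used for linear sofic approximations. -/

open Matrix Kronecker Module

namespace Y39.LinSofic

variable {K : Type*} [Field K]

/-- Rank is subadditive. -/
theorem rank_add_le' {m n : Type*} [Fintype m] [Fintype n] (A B : Matrix m n K) :
    (A + B).rank ≤ A.rank + B.rank := by
  classical
  unfold Matrix.rank
  rw [Matrix.mulVecLin_add]
  refine le_trans (Submodule.finrank_mono (LinearMap.range_add_le _ _)) ?_
  exact Submodule.finrank_add_le_finrank_add_finrank _ _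

theorem rank_neg' {m n : Type*} [Fintype m] [Fintype n] (A : Matrix m n K) :
    (-A).rank = A.rank := by
  unfold Matrix.rank
  rw [show (-A).mulVecLin = -A.mulVecLin from by
    ext v
    simp, LinearMap.range_neg]

theorem rank_sub_comm {m n : Type*} [Fintype m] [Fintype n] (A B : Matrix m n K) :
    (A - B).rank = (B - A).rank := by
  rw [← neg_sub, rank_neg']

/-- Triangle inequality. -/
theorem rank_sub_le_add {m n : Type*} [Fintype m] [Fintype n] (A B C : Matrix m n K) :
    (A - C).rank ≤ (A - B).rank + (B - C).rank := by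
  have h := rank_add_le' (A - B) (B - C)
  rwa [sub_add_sub_cancel] at h

/-- Rank factorisation of a square matrix. -/
theorem exists_factor {m : Type*} [Fintype m] [DecidableEq m] (M : Matrix m m K) :
    ∃ (P : Matrix m (Fin M.rank) K) (Q : Matrix (Fin M.rank) m K), M = P * Q := by
  obtain ⟨V, U, e, hV, hU, h⟩ := Matrix.exists_rank_normal_form M
  obtain ⟨v, rfl⟩ := hV
  obtain ⟨u, rfl⟩ := hU
  -- the normal form factors through `Fin r`
  have h2 : (fromBlocks 1 0 0 0 : Matrix (Fin M.rank ⊕ Fin (Fintype.card m - M.rank))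
      (Fin M.rank ⊕ Fin (Fintype.card m - M.rank)) K).submatrix e e
      = ((fromRows (1 : Matrix (Fin M.rank) (Fin M.rank) K)
          (0 : Matrix (Fin (Fintype.card m - M.rank)) (Fin M.rank) K)).submatrix e id)
        * ((fromCols (1 : Matrix (Fin M.rank) (Fin M.rank) K)
          (0 : Matrix (Fin M.rank) (Fin (Fintype.card m - M.rank)) K)).submatrix id e) := by
    rw [show (id : Fin M.rank → Fin M.rank) = ⇑(Equiv.refl (Fin M.rank)) from rfl,
      Matrix.submatrix_mul_equiv, Matrix.fromRows_mul_fromCols]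
    simp
  refine ⟨(↑v⁻¹ : Matrix m m K) * ((fromRows (1 : Matrix (Fin M.rank) (Fin M.rank) K)
          (0 : Matrix (Fin (Fintype.card m - M.rank)) (Fin M.rank) K)).submatrix e id),
      ((fromCols (1 : Matrix (Fin M.rank) (Fin M.rank) K)
          (0 : Matrix (Fin M.rank) (Fin (Fintype.card m - M.rank)) K)).submatrix id e) *
        (↑u⁻¹ : Matrix m m K), ?_⟩
  rw [Matrix.mul_assoc, ← Matrix.mul_assoc (Matrix.submatrix _ e id), ← h2, ← h]
  simp [Matrix.mul_assoc]

/-- The rank of a Kronecker product with the second factor arbitrary. -/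
theorem rank_kronecker_le_left {m n : Type*} [Fintype m] [DecidableEq m] [Fintype n]
    [DecidableEq n] (A : Matrix m m K) (B : Matrix n n K) :
    (A ⊗ₖ B).rank ≤ A.rank * Fintype.card n := by
  obtain ⟨P, Q, h⟩ := exists_factor A
  have h1 : A ⊗ₖ B = (P ⊗ₖ (1 : Matrix n n K)) * (Q ⊗ₖ B) := by
    rw [← Matrix.mul_kronecker_mul, ← h, Matrix.one_mul]
  rw [h1]
  refine (Matrix.rank_mul_le_left _ _).trans ?_
  refine (Matrix.rank_le_card_width _).trans ?_
  simp

theorem rank_kronecker_le_right {m n : Type*} [Fintype m] [DecidableEq m] [Fintype n]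
    [DecidableEq n] (A : Matrix m m K) (B : Matrix n n K) :
    (A ⊗ₖ B).rank ≤ Fintype.card m * B.rank := by
  obtain ⟨P, Q, h⟩ := exists_factor B
  have h1 : A ⊗ₖ B = ((1 : Matrix m m K) ⊗ₖ P) * (A ⊗ₖ Q) := by
    rw [← Matrix.mul_kronecker_mul, ← h, Matrix.one_mul]
  rw [h1]
  refine (Matrix.rank_mul_le_left _ _).trans ?_
  refine (Matrix.rank_le_card_width _).trans ?_
  simp

/-- The rank does not change under extension of scalars. -/
theorem rank_map_field {L : Type*} [Field L] (f : K →+* L) {m : Type*} [Fintype m]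
    [DecidableEq m] (M : Matrix m m K) : (M.map f).rank = M.rank := by
  apply le_antisymm
  · obtain ⟨P, Q, h⟩ := exists_factor M
    conv_lhs => rw [h, Matrix.map_mul]
    refine (Matrix.rank_mul_le_left _ _).trans ?_
    refine (Matrix.rank_le_card_width _).trans ?_
    simp
  · obtain ⟨V, U, e, hV, hU, h⟩ := Matrix.exists_rank_normal_form M
    have h1 : (V.map f) * (M.map f) * (U.map f)
        = (fromBlocks 1 0 0 0 : Matrix (Fin M.rank ⊕ Fin (Fintype.card m - M.rank))
      (Fin M.rank ⊕ Fin (Fintype.card m - M.rank)) L).submatrix e e := by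
      rw [← Matrix.map_mul, ← Matrix.map_mul, h, ← Matrix.submatrix_map, Matrix.fromBlocks_map]
      simp
    have h2 : ((V.map f) * (M.map f) * (U.map f)).rank ≤ (M.map f).rank :=
      (Matrix.rank_mul_le_left _ _).trans (Matrix.rank_mul_le_right _ _)
    refine le_trans ?_ h2
    rw [h1, Matrix.rank_submatrix]
    have h3 := Matrix.rank_submatrix_le (fromBlocks 1 0 0 0 : Matrix (Fin M.rank ⊕ Fin (Fintype.card m - M.rank))
      (Fin M.rank ⊕ Fin (Fintype.card m - M.rank)) L) Sum.inl Sum.inl
    refine le_trans ?_ h3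
    have h4 : (fromBlocks 1 0 0 0 : Matrix (Fin M.rank ⊕ Fin (Fintype.card m - M.rank))
      (Fin M.rank ⊕ Fin (Fintype.card m - M.rank)) L).submatrix Sum.inl Sum.inl = 1 := by
      ext i j
      simp
    rw [h4, Matrix.rank_one]
    simp

end Y39.LinSofic
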