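import Pool.Agent.Y39.LinDefs
import Pool.Agent.Y39.LinRank
import Pool.Agent.Y39.LinHom

/-! Amplification of linear sofic approximations to the constant `1/2`. -/

open Matrix Kronecker Module

namespace Y39.LinSofic

universe u

variable {K : Type u} [Field K]

/-- The unit `(u⁻¹)ᵀ ⊗ v`. -/
noncomputable def kronUnit {κ ι : Type*} [Fintype κ] [DecidableEq κ] [Fintype ι] [DecidableEq ι]
    (u : (Matrix κ κ K)ˣ) (v : (Matrix ι ι K)ˣ) : (Matrix (κ × ι) (κ × ι) K)ˣ where
  val := (↑u⁻¹ : Matrix κ κ K)ᵀ ⊗ₖ (↑v : Matrix ι ι K)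
  inv := (↑u : Matrix κ κ K)ᵀ ⊗ₖ (↑v⁻¹ : Matrix ι ι K)
  val_inv := by
    rw [← Matrix.mul_kronecker_mul, ← Matrix.transpose_mul]
    simp
  inv_val := by
    rw [← Matrix.mul_kronecker_mul, ← Matrix.transpose_mul]
    simp

theorem kronUnit_mul {κ ι : Type*} [Fintype κ] [DecidableEq κ] [Fintype ι] [DecidableEq ι]
    (u u' : (Matrix κ κ K)ˣ) (v v' : (Matrix ι ι K)ˣ) :
    kronUnit (u * u') (v * v') = kronUnit u v * kronUnit u' v' := by
  ext1
  simp only [kronUnit, Units.val_mul, _root_.mul_inv_rev]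
  rw [← Matrix.mul_kronecker_mul, ← Matrix.transpose_mul]

theorem rank_inv_sub_inv {κ : Type*} [Fintype κ] [DecidableEq κ] (u w : (Matrix κ κ K)ˣ) :
    ((↑u⁻¹ : Matrix κ κ K) - (↑w⁻¹ : Matrix κ κ K)).rank ≤
      ((↑u : Matrix κ κ K) - (↑w : Matrix κ κ K)).rank := by
  have h : (↑u⁻¹ : Matrix κ κ K) - (↑w⁻¹ : Matrix κ κ K)
      = (↑u⁻¹ : Matrix κ κ K) * ((↑w : Matrix κ κ K) - (↑u : Matrix κ κ K)) *
        (↑w⁻¹ : Matrix κ κ K) := by
    rw [Matrix.mul_sub, Matrix.sub_mul, Matrix.mul_assoc, Units.mul_inv, Units.inv_mul,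
      Matrix.mul_one, Matrix.one_mul]
  rw [h, rank_sub_comm (↑u : Matrix κ κ K)]
  exact (Matrix.rank_mul_le_left _ _).trans (Matrix.rank_mul_le_right _ _)

theorem kronUnit_rank_sub {κ ι : Type*} [Fintype κ] [DecidableEq κ] [Fintype ι] [DecidableEq ι]
    (u u' : (Matrix κ κ K)ˣ) (v v' : (Matrix ι ι K)ˣ) :
    ((kronUnit u v : Matrix (κ × ι) (κ × ι) K) -
        (kronUnit u' v' : Matrix (κ × ι) (κ × ι) K)).rank ≤
      ((u : Matrix κ κ K) - (u' : Matrix κ κ K)).rank * Fintype.card ι +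
        Fintype.card κ * ((v : Matrix ι ι K) - (v' : Matrix ι ι K)).rank := by
  have h : (kronUnit u v : Matrix (κ × ι) (κ × ι) K) -
        (kronUnit u' v' : Matrix (κ × ι) (κ × ι) K)
      = ((↑u⁻¹ : Matrix κ κ K) - (↑u'⁻¹ : Matrix κ κ K))ᵀ ⊗ₖ (↑v : Matrix ι ι K) +
        (↑u'⁻¹ : Matrix κ κ K)ᵀ ⊗ₖ ((v : Matrix ι ι K) - (v' : Matrix ι ι K)) := by
    ext ⟨a, b⟩ ⟨c, d⟩
    simp [kronUnit, Matrix.kroneckerMap_apply]
    ring
  rw [h]
  refine (rank_add_le' _ _).trans (add_le_add ?_ (rank_kronecker_le_right _ _))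
  refine (rank_kronecker_le_left _ _).trans ?_
  rw [Matrix.rank_transpose]
  exact Nat.mul_le_mul_right _ (rank_inv_sub_inv _ _)

/-- The dimension of the kernel of `shift (toLin' M) ν`. -/
theorem finrank_ker_shift {L : Type*} [Field L] {κ : Type*} [Fintype κ] [DecidableEq κ]
    (M : Matrix κ κ L) (ν : L) :
    finrank L (LinearMap.ker (shift (Matrix.toLin' M) ν)) + (M - ν • 1).rank = Fintype.card κ := by
  have h : shift (Matrix.toLin' M) ν = (M - ν • 1).mulVecLin := by
    ext v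
    simp [Matrix.sub_mulVec, Matrix.smul_mulVec]
  have h2 := LinearMap.finrank_range_add_finrank_ker ((M - ν • 1).mulVecLin)
  rw [Module.finrank_fintype_fun_eq_card] at h2
  rw [h, Matrix.rank, ← h2, add_comm]

/-- The kernel of `(C⁻¹)ᵀ ⊗ A - μ` embeds into a space of intertwiners. -/
theorem finrank_ker_kron_le {L : Type*} [Field L] {κ ι : Type*} [Fintype κ] [DecidableEq κ]
    [Fintype ι] [DecidableEq ι] (A : Matrix ι ι L) (C D : Matrix κ κ L) (hDC : D * C = 1) (μ : L) :
    finrank L (LinearMap.ker (shift (Matrix.toLin' (Dᵀ ⊗ₖ A)) μ)) ≤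
      finrank L (inter (Matrix.toLin' (μ • C)) (Matrix.toLin' A)) := by
  have key : ∀ v : κ × ι → L, v ∈ LinearMap.ker (shift (Matrix.toLin' (Dᵀ ⊗ₖ A)) μ) →
      A * (Matrix.of fun i k => v (k, i)) = (Matrix.of fun i k => v (k, i)) * (μ • C) := by
    intro v hv
    set X : Matrix ι κ L := Matrix.of fun i k => v (k, i) with hX
    have hvX : v = vec X := by
      ext ⟨a, b⟩
      simp [hX, Matrix.vec]
    rw [LinearMap.mem_ker, shift_apply, Matrix.toLin'_apply, hvX, Matrix.kronecker_mulVec_vec,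
      Matrix.transpose_transpose, ← Matrix.vec_smul, sub_eq_zero, Matrix.vec_inj] at hv
    have h2 := congrArg (fun Y => Y * C) hv
    simp only [Matrix.mul_assoc, hDC, Matrix.mul_one, Matrix.smul_mul] at h2
    rw [h2, Matrix.mul_smul]
  let f : LinearMap.ker (shift (Matrix.toLin' (Dᵀ ⊗ₖ A)) μ) →ₗ[L]
      inter (Matrix.toLin' (μ • C)) (Matrix.toLin' A) :=
    { toFun := fun v => ⟨Matrix.toLin' (Matrix.of fun i k => v.1 (k, i)), by
        rw [mem_inter]
        intro w
        rw [← LinearMap.comp_apply, ← Matrix.toLin'_mul, key v.1 v.2, Matrix.toLin'_mul]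
        rfl⟩
      map_add' := by
        intro v w
        ext1
        change Matrix.toLin' _ = Matrix.toLin' _ + Matrix.toLin' _
        rw [← map_add]
        rfl
      map_smul' := by
        intro c v
        ext1
        change Matrix.toLin' _ = c • Matrix.toLin' _
        rw [← map_smul]
        rfl }
  have hf : Function.Injective f := by
    intro v w h
    have h2 : Matrix.toLin' (Matrix.of fun i k => v.1 (k, i))
        = Matrix.toLin' (Matrix.of fun i k => w.1 (k, i)) := congrArg Subtype.val h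
    have h3 := Matrix.toLin'.injective h2
    ext1
    funext ⟨a, b⟩
    exact congrFun (congrFun h3 b) a
  exact LinearMap.finrank_le_finrank_of_injective hf

/-- Multiplicity bounds over an algebraically closed field multiply. -/
theorem rank_kron_ge {L : Type u} [Field L] [IsAlgClosed L] {κ ι : Type} [Fintype κ]
    [DecidableEq κ] [Fintype ι] [DecidableEq ι] (A : Matrix ι ι L) (C D : Matrix κ κ L)
    (hDC : D * C = 1) (s t : ℝ) (hs : 0 ≤ s) (ht : 0 ≤ t)
    (hA : ∀ μ : L, (1 - t) / 2 * Fintype.card ι ≤ ((A - μ • 1).rank : ℝ))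
    (hC : ∀ μ : L, (1 - s) / 2 * Fintype.card κ ≤ ((C - μ • 1).rank : ℝ)) (μ : L) (hμ : μ ≠ 0) :
    (1 - t * s) / 2 * Fintype.card (κ × ι) ≤ ((Dᵀ ⊗ₖ A - μ • 1).rank : ℝ) := by
  have hr : ∀ ν : L, finrank L (LinearMap.ker (shift (Matrix.toLin' (μ • C)) ν)) ≤
      ⌊(1 + s) * (Fintype.card κ : ℝ) / 2⌋₊ := by
    intro ν
    apply Nat.le_floor
    have h1 := finrank_ker_shift (μ • C) ν
    have h2 : (μ • C - ν • 1).rank = (C - (μ⁻¹ * ν) • 1).rank := by
      have h3 : μ • C - ν • (1 : Matrix κ κ L) = (μ • (1 : Matrix κ κ L)) * (C - (μ⁻¹ * ν) • 1) := by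
        rw [Matrix.smul_mul, Matrix.one_mul, smul_sub, smul_smul, mul_inv_cancel_left₀ hμ]
      rw [h3]
      apply Matrix.rank_mul_eq_right_of_isUnit_det
      rw [Matrix.det_smul, Matrix.det_one, mul_one]
      exact (IsUnit.mk0 _ hμ).pow _
    rw [h2] at h1
    have h4 := hC (μ⁻¹ * ν)
    have h5 : (finrank L (LinearMap.ker (shift (Matrix.toLin' (μ • C)) ν)) : ℝ)
      + ((C - (μ⁻¹ * ν) • 1).rank : ℝ) = Fintype.card κ := by exact_mod_cast h1
    linarith
  have hq : ∀ ν : L, finrank L (LinearMap.ker (shift (Matrix.toLin' A) ν)) ≤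
      ⌊(1 + t) * (Fintype.card ι : ℝ) / 2⌋₊ := by
    intro ν
    apply Nat.le_floor
    have h1 := finrank_ker_shift A ν
    have h4 := hA ν
    have h5 : (finrank L (LinearMap.ker (shift (Matrix.toLin' A) ν)) : ℝ)
      + ((A - ν • 1).rank : ℝ) = Fintype.card ι := by exact_mod_cast h1
    linarith
  obtain ⟨k, x, y, hx, hy, hsx, hsy, hle⟩ := inter_bound _ _ _ (κ → L) (ι → L) rfl
    (Matrix.toLin' (μ • C)) (Matrix.toLin' A) hr hq
  rw [Module.finrank_fintype_fun_eq_card] at hsx hsy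
  have hw := weight_ineq k (fun i => (x i : ℝ)) (fun i => (y i : ℝ)) (Fintype.card ι)
    (Fintype.card κ) s t hs ht (Nat.cast_nonneg _) (Nat.cast_nonneg _)
    (fun i => Nat.cast_nonneg _) (fun i => Nat.cast_nonneg _)
    (fun i => (Nat.le_floor_iff (by positivity)).1 (hx i))
    (fun i => (Nat.le_floor_iff (by positivity)).1 (hy i))
    (by exact_mod_cast hsx) (by exact_mod_cast hsy)
  have h6 := finrank_ker_kron_le A C D hDC μ
  have h7 := finrank_ker_shift (Dᵀ ⊗ₖ A) μ
  have h8 : (finrank L (LinearMap.ker (shift (Matrix.toLin' (Dᵀ ⊗ₖ A)) μ)) : ℝ)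
      + ((Dᵀ ⊗ₖ A - μ • 1).rank : ℝ) = Fintype.card (κ × ι) := by exact_mod_cast h7
  have h9 : (finrank L (LinearMap.ker (shift (Matrix.toLin' (Dᵀ ⊗ₖ A)) μ)) : ℝ) ≤
      ∑ i, (x i : ℝ) * (y i : ℝ) := by
    have := h6.trans hle
    exact_mod_cast this
  have h10 : (Fintype.card (κ × ι) : ℝ) = Fintype.card κ * Fintype.card ι := by
    rw [Fintype.card_prod]
    push_cast
    ring
  rw [h10] at h8 ⊢
  nlinarith

/-- Approximate multiplicativity on `F` with error `δ`, and on `E` all multiplicities of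
eigenvalues over the algebraic closure are at most `(1 + t)/2` times the dimension. -/
def Good (K : Type u) [Field K] {G : Type*} [Group G] (F E : Finset G) (t δ : ℝ) : Prop :=
  ∃ (ι : Type) (_ : Fintype ι) (_ : DecidableEq ι) (_ : Nonempty ι) (φ : G → (Matrix ι ι K)ˣ),
    (∀ g ∈ F, ∀ h ∈ F, (((φ g * φ h : (Matrix ι ι K)ˣ) : Matrix ι ι K) - φ (g * h)).rank ≤
      δ * Fintype.card ι) ∧
    (∀ x ∈ E, ∀ μ : AlgebraicClosure K, (1 - t) / 2 * Fintype.card ι ≤
      ((((φ x : Matrix ι ι K).map (algebraMap K (AlgebraicClosure K))) - μ • 1).rank : ℝ))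

theorem Good.mul {G : Type*} [Group G] {F E : Finset G} {s t δ δ' : ℝ} (hs : 0 ≤ s) (ht : 0 ≤ t)
    (h1 : Good K F E t δ) (h2 : Good K F E s δ') : Good K F E (t * s) (δ + δ') := by
  obtain ⟨ι, _, _, _, φ, hφ, hφ'⟩ := h1
  obtain ⟨κ, _, _, _, ψ, hψ, hψ'⟩ := h2
  refine ⟨κ × ι, inferInstance, inferInstance, inferInstance,
    fun g => kronUnit (ψ g) (φ g), ?_, ?_⟩
  · intro g hg h hh
    have ha := hφ g hg h hh
    have hb := hψ g hg h hh
    have hc := kronUnit_rank_sub (ψ g * ψ h) (ψ (g * h)) (φ g * φ h) (φ (g * h))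
    rw [kronUnit_mul] at hc
    have hd : (((kronUnit (ψ g) (φ g) * kronUnit (ψ h) (φ h) :
        (Matrix (κ × ι) (κ × ι) K)ˣ) : Matrix (κ × ι) (κ × ι) K)
        - kronUnit (ψ (g * h)) (φ (g * h))).rank ≤
        (((ψ g * ψ h : (Matrix κ κ K)ˣ) : Matrix κ κ K) - ψ (g * h)).rank * (Fintype.card ι : ℝ) +
        (Fintype.card κ : ℝ) *
          (((φ g * φ h : (Matrix ι ι K)ˣ) : Matrix ι ι K) - φ (g * h)).rank := by
      exact_mod_cast hc
    refine hd.trans ?_
    have he : (Fintype.card (κ × ι) : ℝ) = Fintype.card κ * Fintype.card ι := by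
      rw [Fintype.card_prod]
      push_cast
      ring
    rw [he]
    have hf : (0 : ℝ) ≤ Fintype.card ι := Nat.cast_nonneg _
    have hg : (0 : ℝ) ≤ Fintype.card κ := Nat.cast_nonneg _
    nlinarith [mul_le_mul_of_nonneg_right hb hf, mul_le_mul_of_nonneg_left ha hg]
  · intro x hx μ
    have hmap : ((kronUnit (ψ x) (φ x) : Matrix (κ × ι) (κ × ι) K).map
        (algebraMap K (AlgebraicClosure K)))
        = (((↑(ψ x)⁻¹ : Matrix κ κ K).map (algebraMap K (AlgebraicClosure K))))ᵀ ⊗ₖ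
          ((φ x : Matrix ι ι K).map (algebraMap K (AlgebraicClosure K))) := by
      ext ⟨a, b⟩ ⟨c, d⟩
      simp [kronUnit, Matrix.kroneckerMap_apply]
    by_cases hμ : μ = 0
    · rw [hμ, zero_smul, sub_zero, rank_map_field]
      rw [Matrix.rank_unit]
      have h1 : 0 ≤ t * s := mul_nonneg ht hs
      have h2 : (0 : ℝ) ≤ Fintype.card (κ × ι) := Nat.cast_nonneg _
      nlinarith
    · rw [hmap]
      refine rank_kron_ge _ ((ψ x : Matrix κ κ K).map (algebraMap K (AlgebraicClosure K))) _ ?_ s t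
        hs ht (hφ' x hx) (hψ' x hx) μ hμ
      rw [← Matrix.map_mul, Units.inv_mul]
      simp

theorem Good.pow {G : Type*} [Group G] {F E : Finset G} {t : ℝ} (ht : 0 ≤ t)
    (h : ∀ δ : ℝ, 0 < δ → Good K F E t δ) (m : ℕ) :
    ∀ δ : ℝ, 0 < δ → Good K F E (t ^ (m + 1)) δ := by
  induction m with
  | zero => simpa using h
  | succ m ih =>
    intro δ hδ
    have h1 := (ih (δ / 2) (by positivity)).mul ht (by positivity) (h (δ / 2) (by positivity))
    rw [add_halves] at h1
    rwa [pow_succ]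

theorem fromBlocks_sub' {L : Type*} [Field L] {κ : Type*} (A B C D A' B' C' D' : Matrix κ κ L) :
    fromBlocks A B C D - fromBlocks A' B' C' D' =
      fromBlocks (A - A') (B - B') (C - C') (D - D') := by
  ext i j
  rcases i with i | i <;> rcases j with j | j <;> simp

/-- The unit `u ⊕ 1`. -/
def blockUnit {κ : Type*} [Fintype κ] [DecidableEq κ] (u : (Matrix κ κ K)ˣ) :
    (Matrix (κ ⊕ κ) (κ ⊕ κ) K)ˣ where
  val := fromBlocks (↑u) 0 0 1
  inv := fromBlocks (↑u⁻¹) 0 0 1
  val_inv := by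
    rw [Matrix.fromBlocks_multiply]
    simp
  inv_val := by
    rw [Matrix.fromBlocks_multiply]
    simp

theorem Good.of_approximable {G : Type*} [Group G] {c : ℝ} (hc : 0 < c) (hc1 : c ≤ 1)
    (h : Approximable K c G) (F E : Finset G) (hE : (1 : G) ∉ E) (δ : ℝ) (hδ : 0 < δ) :
    Good K F E (1 - c / 2) δ := by
  classical
  obtain ⟨n, hn, φ, h1, h2⟩ := h (insert 1 (F ∪ E)) (min δ (c / 4)) (by positivity)
  have hn' : (0 : ℝ) < n := by exact_mod_cast hn
  refine ⟨Fin n ⊕ Fin n, inferInstance, inferInstance, ⟨Sum.inl ⟨0, hn⟩⟩,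
    fun g => blockUnit (φ g), ?_, ?_⟩
  · intro g hg k hk
    have h3 := h1 g (by simp [hg]) k (by simp [hk])
    unfold dRank at h3
    rw [div_lt_iff₀ hn'] at h3
    have h4 : (((blockUnit (φ g) * blockUnit (φ k) : (Matrix (Fin n ⊕ Fin n) (Fin n ⊕ Fin n) K)ˣ) :
        Matrix (Fin n ⊕ Fin n) (Fin n ⊕ Fin n) K) -
          (blockUnit (φ (g * k)) : Matrix (Fin n ⊕ Fin n) (Fin n ⊕ Fin n) K))
        = (fromRows (1 : Matrix (Fin n) (Fin n) K) (0 : Matrix (Fin n) (Fin n) K)) *
          (((φ g * φ k : GL (Fin n) K) : Matrix (Fin n) (Fin n) K) - (φ (g * k) :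
            Matrix (Fin n) (Fin n) K)) *
          (fromCols (1 : Matrix (Fin n) (Fin n) K) (0 : Matrix (Fin n) (Fin n) K)) := by
      rw [Matrix.fromRows_mul, Matrix.fromRows_mul_fromCols]
      simp only [Units.val_mul, blockUnit]
      rw [Matrix.fromBlocks_multiply, fromBlocks_sub']
      simp
    rw [h4]
    have h5 : ((fromRows (1 : Matrix (Fin n) (Fin n) K) (0 : Matrix (Fin n) (Fin n) K)) *
          (((φ g * φ k : GL (Fin n) K) : Matrix (Fin n) (Fin n) K) - (φ (g * k) :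
            Matrix (Fin n) (Fin n) K)) *
          (fromCols (1 : Matrix (Fin n) (Fin n) K) (0 : Matrix (Fin n) (Fin n) K))).rank
        ≤ (((φ g * φ k : GL (Fin n) K) : Matrix (Fin n) (Fin n) K) - (φ (g * k) :
            Matrix (Fin n) (Fin n) K)).rank :=
      (Matrix.rank_mul_le_left _ _).trans (Matrix.rank_mul_le_right _ _)
    have h6 : (((fromRows (1 : Matrix (Fin n) (Fin n) K) (0 : Matrix (Fin n) (Fin n) K)) *
          (((φ g * φ k : GL (Fin n) K) : Matrix (Fin n) (Fin n) K) - (φ (g * k) :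
            Matrix (Fin n) (Fin n) K)) *
          (fromCols (1 : Matrix (Fin n) (Fin n) K) (0 : Matrix (Fin n) (Fin n) K))).rank : ℝ)
        ≤ ((((φ g * φ k : GL (Fin n) K) : Matrix (Fin n) (Fin n) K) - (φ (g * k) :
            Matrix (Fin n) (Fin n) K)).rank : ℝ) := by exact_mod_cast h5
    refine h6.trans (h3.le.trans ?_)
    have h7 : min δ (c / 4) ≤ δ := min_le_left _ _
    simp only [Fintype.card_sum, Fintype.card_fin]
    push_cast
    nlinarith
  · intro x hx μ
    have hx1 : x ≠ 1 := fun h => hE (h ▸ hx)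
    have h3 := h2 x (by simp [hx]) 1 (by simp) hx1
    have h4 := h1 1 (by simp) 1 (by simp)
    unfold dRank at h3 h4
    rw [lt_div_iff₀ hn'] at h3
    rw [div_lt_iff₀ hn'] at h4
    have h5 : min δ (c / 4) ≤ c / 4 := min_le_right _ _
    -- `φ 1` is close to `1`
    have h6 : ((φ 1 : Matrix (Fin n) (Fin n) K) - 1).rank =
        (((φ 1 * φ 1 : GL (Fin n) K) : Matrix (Fin n) (Fin n) K) - (φ (1 * 1) :
            Matrix (Fin n) (Fin n) K)).rank := by
      have h7 : (((φ 1 * φ 1 : GL (Fin n) K) : Matrix (Fin n) (Fin n) K) - (φ (1 * 1) :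
            Matrix (Fin n) (Fin n) K)) = (φ 1 : Matrix (Fin n) (Fin n) K) *
            ((φ 1 : Matrix (Fin n) (Fin n) K) - 1) := by
        rw [mul_one, Matrix.mul_sub, Matrix.mul_one]
        rfl
      rw [h7, Matrix.rank_mul_eq_right_of_isUnit_det]
      exact (Matrix.isUnit_iff_isUnit_det _).1 (φ 1).isUnit
    rw [← h6] at h4
    have h8 : ((φ x : Matrix (Fin n) (Fin n) K) - (φ 1 : Matrix (Fin n) (Fin n) K)).rank ≤
        ((φ x : Matrix (Fin n) (Fin n) K) - 1).rank +
          ((φ 1 : Matrix (Fin n) (Fin n) K) - 1).rank := by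
      rw [rank_sub_comm (φ 1 : Matrix (Fin n) (Fin n) K)]
      exact rank_sub_le_add _ _ _
    have h9 : (((φ x : Matrix (Fin n) (Fin n) K) - (φ 1 : Matrix (Fin n) (Fin n) K)).rank : ℝ) ≤
        ((φ x : Matrix (Fin n) (Fin n) K) - 1).rank +
          ((φ 1 : Matrix (Fin n) (Fin n) K) - 1).rank := by exact_mod_cast h8
    have h10 : c / 2 * n ≤ (((φ x : Matrix (Fin n) (Fin n) K) - 1).rank : ℝ) := by nlinarith
    have hcard : (Fintype.card (Fin n ⊕ Fin n) : ℝ) = 2 * n := by
      simp only [Fintype.card_sum, Fintype.card_fin]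
      push_cast
      ring
    have hmat : (((blockUnit (φ x) : Matrix (Fin n ⊕ Fin n) (Fin n ⊕ Fin n) K).map
        (algebraMap K (AlgebraicClosure K))) - μ • 1)
        = fromBlocks ((φ x : Matrix (Fin n) (Fin n) K).map
          (algebraMap K (AlgebraicClosure K)) - μ • 1) 0 0 (1 - μ • 1) := by
      rw [← Matrix.fromBlocks_one, Matrix.fromBlocks_smul]
      simp only [blockUnit]
      rw [Matrix.fromBlocks_map, fromBlocks_sub']
      simp
    rw [hmat, hcard]
    have hgoal : (1 - (1 - c / 2)) / 2 * (2 * (n : ℝ)) = c / 2 * n := by ring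
    rw [hgoal]
    by_cases hμ : μ = 1
    · have h11 := Matrix.rank_submatrix_le (fromBlocks ((φ x : Matrix (Fin n) (Fin n) K).map
          (algebraMap K (AlgebraicClosure K)) - μ • 1) 0 0
          ((1 : Matrix (Fin n) (Fin n) (AlgebraicClosure K)) - μ • 1)) Sum.inl Sum.inl
      have h12 : (fromBlocks ((φ x : Matrix (Fin n) (Fin n) K).map
          (algebraMap K (AlgebraicClosure K)) - μ • 1) 0 0
          ((1 : Matrix (Fin n) (Fin n) (AlgebraicClosure K)) - μ • 1)).submatrix Sum.inl Sum.inl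
          = ((φ x : Matrix (Fin n) (Fin n) K) - 1).map (algebraMap K (AlgebraicClosure K)) := by
        rw [Matrix.map_sub _ (by simp), Matrix.map_one _ (by simp) (by simp), hμ, one_smul]
        ext i j
        simp
      rw [h12, rank_map_field] at h11
      refine h10.trans ?_
      exact_mod_cast h11
    · have h11 := Matrix.rank_submatrix_le (fromBlocks ((φ x : Matrix (Fin n) (Fin n) K).map
          (algebraMap K (AlgebraicClosure K)) - μ • 1) 0 0
          ((1 : Matrix (Fin n) (Fin n) (AlgebraicClosure K)) - μ • 1)) Sum.inr Sum.inr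
      have h12 : (fromBlocks ((φ x : Matrix (Fin n) (Fin n) K).map
          (algebraMap K (AlgebraicClosure K)) - μ • 1) 0 0
          ((1 : Matrix (Fin n) (Fin n) (AlgebraicClosure K)) - μ • 1)).submatrix Sum.inr Sum.inr
          = (1 - μ) • (1 : Matrix (Fin n) (Fin n) (AlgebraicClosure K)) := by
        rw [sub_smul, one_smul]
        ext i j
        simp
      have h13 : ((1 - μ) • (1 : Matrix (Fin n) (Fin n) (AlgebraicClosure K))).rank = n := by
        rw [Matrix.rank_of_isUnit, Fintype.card_fin]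
        rw [Matrix.isUnit_iff_isUnit_det, Matrix.det_smul, Matrix.det_one, mul_one]
        exact (IsUnit.mk0 _ (sub_ne_zero.2 (Ne.symm hμ))).pow _
      rw [h12, h13] at h11
      have h14 : (n : ℝ) ≤ ((fromBlocks ((φ x : Matrix (Fin n) (Fin n) K).map
          (algebraMap K (AlgebraicClosure K)) - μ • 1) 0 0
          ((1 : Matrix (Fin n) (Fin n) (AlgebraicClosure K)) - μ • 1)).rank : ℝ) := by
        exact_mod_cast h11
      refine le_trans ?_ h14
      nlinarith

/-- Amplification: every linear sofic group is `1/2`-approximable. -/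
theorem approximable_half {G : Type*} [Group G] {c : ℝ} (hc : 0 < c) (hc1 : c ≤ 1)
    (h : Approximable K c G) : Approximable K (1 / 2) G := by
  classical
  intro F δ hδ
  set D : Finset G := (F ×ˢ F).image (fun p => p.2⁻¹ * p.1) with hD
  set t : ℝ := 1 - c / 2 with ht
  have ht0 : 0 ≤ t := by
    rw [ht]
    linarith
  have ht1 : t < 1 := by
    rw [ht]
    linarith
  obtain ⟨m, hm⟩ := exists_pow_lt_of_lt_one (show (0 : ℝ) < δ / 2 by positivity) ht1
  have hm' : t ^ (m + 1) < δ / 2 := by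
    refine lt_of_le_of_lt ?_ hm
    rw [pow_succ]
    exact mul_le_of_le_one_right (pow_nonneg ht0 m) ht1.le
  obtain ⟨ι, _, _, _, φ, h1, h2⟩ := Good.pow ht0
    (fun δ' hδ' => Good.of_approximable hc hc1 h (F ∪ D) (D.erase 1) (by simp) δ' hδ') m
    (δ / 4) (by positivity)
  set e := Fintype.equivFin ι with he
  set N := Fintype.card ι with hN
  have hNpos : 0 < N := Fintype.card_pos
  have hN' : (0 : ℝ) < N := by exact_mod_cast hNpos
  let Φ : (Matrix ι ι K) →* (Matrix (Fin N) (Fin N) K) :=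
    (Matrix.reindexRingEquiv K e : Matrix ι ι K ≃+* Matrix (Fin N) (Fin N) K).toRingHom.toMonoidHom
  have hΦ : ∀ M : Matrix ι ι K, Φ M = M.submatrix e.symm e.symm := fun M => rfl
  have hrank : ∀ u v : (Matrix ι ι K)ˣ,
      ((Units.map Φ u : Matrix (Fin N) (Fin N) K) - (Units.map Φ v : Matrix (Fin N) (Fin N) K)).rank
      = ((u : Matrix ι ι K) - v).rank := by
    intro u v
    have h3 : (Units.map Φ u : Matrix (Fin N) (Fin N) K) - (Units.map Φ v : Matrix (Fin N) (Fin N) K)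
        = ((u : Matrix ι ι K) - v).submatrix e.symm e.symm := by
      rw [Units.coe_map, Units.coe_map]
      change Φ _ - Φ _ = _
      rw [hΦ, hΦ]
      rfl
    rw [h3, Matrix.rank_submatrix]
  refine ⟨N, hNpos, fun g => Units.map Φ (φ g), ?_, ?_⟩
  · intro g hg k hk
    unfold dRank
    rw [← map_mul, hrank, div_lt_iff₀ hN']
    refine lt_of_le_of_lt (h1 g (by simp [hg]) k (by simp [hk])) ?_
    nlinarith
  · intro g hg k hk hgk
    unfold dRank
    rw [hrank, lt_div_iff₀ hN']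
    have hxD : k⁻¹ * g ∈ D := Finset.mem_image.2 ⟨(g, k), by simp [hg, hk], rfl⟩
    have hx1 : k⁻¹ * g ≠ 1 := by
      intro h3
      exact hgk (inv_mul_eq_one.1 h3).symm
    have h3 := h1 k (by simp [hk]) (k⁻¹ * g) (by simp [hxD])
    rw [mul_inv_cancel_left] at h3
    have h4 := h2 (k⁻¹ * g) (by simp [hxD, hx1]) 1
    have h5 : ((φ (k⁻¹ * g) : Matrix ι ι K).map (algebraMap K (AlgebraicClosure K))) -
        (1 : AlgebraicClosure K) • 1 =
        ((φ (k⁻¹ * g) : Matrix ι ι K) - 1).map (algebraMap K (AlgebraicClosure K)) := by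
      rw [Matrix.map_sub _ (by simp), Matrix.map_one _ (by simp) (by simp), one_smul]
    rw [h5, rank_map_field] at h4
    have h6 : ((φ (k⁻¹ * g) : Matrix ι ι K) - 1).rank =
        (((φ k * φ (k⁻¹ * g) : (Matrix ι ι K)ˣ) : Matrix ι ι K) - φ k).rank := by
      have h7 : (((φ k * φ (k⁻¹ * g) : (Matrix ι ι K)ˣ) : Matrix ι ι K) - φ k) =
          (φ k : Matrix ι ι K) * ((φ (k⁻¹ * g) : Matrix ι ι K) - 1) := by
        rw [Matrix.mul_sub, Matrix.mul_one, Units.val_mul]
      rw [h7, Matrix.rank_mul_eq_right_of_isUnit_det]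
      exact (Matrix.isUnit_iff_isUnit_det _).1 (φ k).isUnit
    have h8 := rank_sub_le_add (((φ k * φ (k⁻¹ * g) : (Matrix ι ι K)ˣ) : Matrix ι ι K))
      (φ g : Matrix ι ι K) (φ k : Matrix ι ι K)
    rw [← h6] at h8
    have h9 : (((φ (k⁻¹ * g) : Matrix ι ι K) - 1).rank : ℝ) ≤
        ((((φ k * φ (k⁻¹ * g) : (Matrix ι ι K)ˣ) : Matrix ι ι K) - φ g).rank : ℝ) +
          (((φ g : Matrix ι ι K) - φ k).rank : ℝ) := by exact_mod_cast h8
    nlinarith

end Y39.LinSofic
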