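import Mathlib

/-! Metric approximations of groups by general linear groups with the normalised rank distance. -/

namespace Y39.LinSofic

/-- The normalised rank distance `rank(A - B) / n` of two `n × n` matrices. -/
noncomputable def dRank {K : Type*} [Field K] {n : ℕ} (A B : GL (Fin n) K) : ℝ :=
  (((A : Matrix (Fin n) (Fin n) K) - (B : Matrix (Fin n) (Fin n) K)).rank : ℝ) / n

/-- `G` is `ε`-approximable by the groups `GL(n, K)` with the normalised rank distance: for every
finite `F ⊆ G` and `δ > 0` there are `n ≥ 1` and a map `φ : G → GL(n, K)` such that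
`d(φ(g) φ(h), φ(g h)) < δ` for all `g, h ∈ F` and `d(φ(g), φ(h)) > ε - δ` for all distinct
`g, h ∈ F`. -/
def Approximable (K : Type*) [Field K] (ε : ℝ) (G : Type*) [Group G] : Prop :=
  ∀ (F : Finset G) (δ : ℝ), 0 < δ → ∃ n : ℕ, 0 < n ∧ ∃ φ : G → GL (Fin n) K,
    (∀ g ∈ F, ∀ h ∈ F, dRank (φ g * φ h) (φ (g * h)) < δ) ∧
    (∀ g ∈ F, ∀ h ∈ F, g ≠ h → ε - δ < dRank (φ g) (φ h))

theorem Approximable.mono {K : Type*} [Field K] {ε ε' : ℝ} {G : Type*} [Group G] (h : ε' ≤ ε)
    (hG : Approximable K ε G) : Approximable K ε' G := by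
  intro F δ hδ
  obtain ⟨n, hn, φ, h1, h2⟩ := hG F δ hδ
  exact ⟨n, hn, φ, h1, fun g hg k hk hgk => lt_of_le_of_lt (by linarith) (h2 g hg k hk hgk)⟩

end Y39.LinSofic
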