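import Pool.Agent.Y39.LinDefs
import Pool.Agent.Y39.LinRank

/-! The direct sum of countably many groups of order two is `1/2`-approximable, but it is not
`ε`-approximable for any `ε > 1/2`. -/

open Matrix Module

namespace Y39.LinSofic

/-- The direct sum of countably many copies of the group of order two. -/
abbrev E2 : Type := Multiplicative (ℕ →₀ ZMod 2)

theorem E2_sq (g : E2) : g * g = 1 := by
  apply Multiplicative.toAdd.injective
  rw [toAdd_mul, toAdd_one]
  ext i
  rw [Finsupp.add_apply]
  exact congrArg (fun x : ZMod 2 => x) (CharTwo.add_self_eq_zero _)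

/-- The `k`-th generator. -/
noncomputable def zgen (k : ℕ) : E2 := Multiplicative.ofAdd (Finsupp.single k 1)

/-- The subgroup generated by the first `k` generators, as a finite set. -/
noncomputable def HH : ℕ → Finset E2
  | 0 => {1}
  | k + 1 => HH k ∪ (HH k).image (fun g => zgen k * g)

theorem toAdd_zgen_mul (k : ℕ) (g : E2) (i : ℕ) :
    (Multiplicative.toAdd (zgen k * g)) i = (if i = k then 1 else 0) + (Multiplicative.toAdd g) i := by
  rw [toAdd_mul, Finsupp.add_apply]
  congr 1
  change (Finsupp.single k (1 : ZMod 2)) i = _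
  rw [Finsupp.single_apply]
  by_cases h : k = i
  · simp [h]
  · have h' : ¬ i = k := fun h2 => h h2.symm
    simp [h, h']

theorem mem_HH (k : ℕ) (g : E2) : g ∈ HH k ↔ ∀ i, k ≤ i → (Multiplicative.toAdd g) i = 0 := by
  induction k generalizing g with
  | zero =>
    simp only [HH, Finset.mem_singleton]
    constructor
    · rintro rfl i -
      simp
    · intro h
      apply Multiplicative.toAdd.injective
      ext i
      simpa using h i (Nat.zero_le i)
  | succ k ih =>
    simp only [HH, Finset.mem_union, Finset.mem_image]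
    constructor
    · rintro (h | ⟨a, ha, rfl⟩) i hi
      · exact (ih g).1 h i (by omega)
      · rw [toAdd_zgen_mul, (ih a).1 ha i (by omega)]
        simp [show i ≠ k by omega]
    · intro h
      by_cases hk : (Multiplicative.toAdd g) k = 0
      · left
        rw [ih]
        intro i hi
        rcases Nat.eq_or_lt_of_le hi with h1 | h1
        · rw [← h1, hk]
        · exact h i h1
      · right
        refine ⟨zgen k * g, ?_, ?_⟩
        · rw [ih]
          intro i hi
          rw [toAdd_zgen_mul]
          rcases Nat.eq_or_lt_of_le hi with h1 | h1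
          · rw [if_pos h1.symm, ← h1]
            have h2 : ∀ x : ZMod 2, x ≠ 0 → 1 + x = 0 := by decide
            exact h2 _ hk
          · rw [if_neg (by omega), h i h1, add_zero]
        · rw [← mul_assoc, E2_sq, one_mul]

theorem one_mem_HH (k : ℕ) : (1 : E2) ∈ HH k := by
  rw [mem_HH]
  intro i _
  simp

theorem mul_mem_HH {k : ℕ} {g h : E2} (hg : g ∈ HH k) (hh : h ∈ HH k) : g * h ∈ HH k := by
  rw [mem_HH] at *
  intro i hi
  rw [toAdd_mul, Finsupp.add_apply, hg i hi, hh i hi, add_zero]

theorem HH_mono (k : ℕ) {g : E2} (hg : g ∈ HH k) : g ∈ HH (k + 1) := by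
  rw [mem_HH] at *
  intro i hi
  exact hg i (by omega)

theorem zgen_mem_HH (k : ℕ) : zgen k ∈ HH (k + 1) := by
  rw [mem_HH]
  intro i hi
  have h := toAdd_zgen_mul k 1 i
  rw [mul_one] at h
  rw [h, if_neg (by omega)]
  simp

theorem sum_HH {M : Type*} [AddCommMonoid M] (k : ℕ) (f : E2 → M) :
    ∑ g ∈ HH (k + 1), f g = ∑ g ∈ HH k, (f g + f (zgen k * g)) := by
  have hdisj : Disjoint (HH k) ((HH k).image (fun g => zgen k * g)) := by
    rw [Finset.disjoint_left]
    intro g hg hg2
    obtain ⟨a, ha, rfl⟩ := Finset.mem_image.1 hg2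
    have h1 := (mem_HH k _).1 hg k le_rfl
    have h2 := (mem_HH k _).1 ha k le_rfl
    rw [toAdd_zgen_mul, h2] at h1
    simp at h1
  rw [show HH (k + 1) = HH k ∪ (HH k).image (fun g => zgen k * g) from rfl,
    Finset.sum_union hdisj, Finset.sum_image, Finset.sum_add_distrib]
  intro a _ b _ hab
  exact mul_left_cancel hab

theorem card_HH (k : ℕ) : (HH k).card = 2 ^ k := by
  induction k with
  | zero => rfl
  | succ k ih =>
    rw [Finset.card_eq_sum_ones, sum_HH, Finset.sum_const, ih, pow_succ]
    simp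

section Rep

variable {K V : Type*} [Field K] [AddCommGroup V] [Module K V] [FiniteDimensional K V]

theorem map_add_le (f : Module.End K V) (W U : Submodule K V) (hU : U ≤ W)
    (h0 : ∀ u ∈ U, f u = 0) : finrank K (W.map f) + finrank K U ≤ finrank K W := by
  have h1 := LinearMap.finrank_range_add_finrank_ker (f.domRestrict W)
  rw [LinearMap.range_domRestrict] at h1
  have h2 : finrank K U ≤ finrank K (LinearMap.ker (f.domRestrict W)) := by
    rw [← (Submodule.comapSubtypeEquivOfLe hU).finrank_eq]
    apply Submodule.finrank_mono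
    intro w hw
    rw [LinearMap.mem_ker]
    exact h0 _ hw
  omega

/-- `W` carries an exact representation of `HH k`. -/
structure Exact (f : E2 → Module.End K V) (k : ℕ) (W : Submodule K V) : Prop where
  mem : ∀ g ∈ HH k, ∀ w ∈ W, f g w ∈ W
  mul : ∀ g ∈ HH k, ∀ h ∈ HH k, ∀ w ∈ W, f g (f h w) = f (g * h) w
  one : ∀ w ∈ W, f 1 w = w

theorem upper_char_two (h2 : (2 : K) = 0) (f : E2 → Module.End K V) (k : ℕ) (W : Submodule K V)
    (hW : Exact f k W) :
    2 * ∑ g ∈ HH k, finrank K (W.map (f g - 1)) ≤ 2 ^ k * finrank K W := by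
  have h1 : ∀ g ∈ HH k, 2 * finrank K (W.map (f g - 1)) ≤ finrank K W := by
    intro g hg
    have h := map_add_le (f g - 1) W (W.map (f g - 1)) (by
      rintro _ ⟨w, hw, rfl⟩
      simpa using W.sub_mem (hW.mem g hg w hw) hw) (by
      rintro _ ⟨w, hw, rfl⟩
      have h3 := hW.mul g hg g hg w hw
      rw [E2_sq, hW.one w hw] at h3
      simp only [LinearMap.sub_apply, Module.End.one_apply, map_sub, h3]
      have h4 : w - f g w - (f g w - w) = (2 : K) • (w - f g w) := by
        rw [two_smul]
        abel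
      rw [h4, h2, zero_smul])
    omega
  rw [Finset.mul_sum]
  calc ∑ g ∈ HH k, 2 * finrank K (W.map (f g - 1)) ≤ ∑ g ∈ HH k, finrank K W :=
        Finset.sum_le_sum h1
    _ = 2 ^ k * finrank K W := by rw [Finset.sum_const, card_HH, smul_eq_mul]

theorem upper_char_ne_two (h2 : (2 : K) ≠ 0) (f : E2 → Module.End K V) (k : ℕ) :
    ∀ (W : Submodule K V), Exact f k W →
    2 * ∑ g ∈ HH k, finrank K (W.map (f g - 1)) ≤ 2 ^ k * finrank K W := by
  induction k with
  | zero =>
    intro W hW
    have h1 : W.map (f 1 - 1) = ⊥ := by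
      rw [eq_bot_iff]
      rintro _ ⟨w, hw, rfl⟩
      simp [hW.one w hw]
    rw [show HH 0 = {1} from rfl, Finset.sum_singleton, h1, finrank_bot]
    simp
  | succ k ih =>
    intro W hW
    set z := zgen k with hz
    have hzH : z ∈ HH (k + 1) := zgen_mem_HH k
    -- the two eigenspaces
    let Wp : Submodule K V := W ⊓ LinearMap.ker (f z - 1)
    let Wm : Submodule K V := W ⊓ LinearMap.ker (f z + 1)
    have hWp : ∀ w, w ∈ Wp ↔ w ∈ W ∧ f z w = w := by
      intro w
      simp only [Wp, Submodule.mem_inf, LinearMap.mem_ker, LinearMap.sub_apply,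
        Module.End.one_apply, sub_eq_zero]
    have hWm : ∀ w, w ∈ Wm ↔ w ∈ W ∧ f z w = -w := by
      intro w
      simp only [Wm, Submodule.mem_inf, LinearMap.mem_ker, LinearMap.add_apply,
        Module.End.one_apply, add_eq_zero_iff_eq_neg]
    have hcomm : ∀ g ∈ HH k, ∀ w ∈ W, f z (f g w) = f g (f z w) := by
      intro g hg w hw
      rw [hW.mul z hzH g (HH_mono k hg) w hw, hW.mul g (HH_mono k hg) z hzH w hw, mul_comm]
    have hzz : ∀ w ∈ W, f z (f z w) = w := by
      intro w hw
      rw [hW.mul z hzH z hzH w hw, E2_sq, hW.one w hw]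
    have hinvp : ∀ g ∈ HH k, ∀ w ∈ Wp, f g w ∈ Wp := by
      intro g hg w hw
      rw [hWp] at hw ⊢
      exact ⟨hW.mem g (HH_mono k hg) w hw.1, by rw [hcomm g hg w hw.1, hw.2]⟩
    have hinvm : ∀ g ∈ HH k, ∀ w ∈ Wm, f g w ∈ Wm := by
      intro g hg w hw
      rw [hWm] at hw ⊢
      exact ⟨hW.mem g (HH_mono k hg) w hw.1, by rw [hcomm g hg w hw.1, hw.2, map_neg]⟩
    have hEp : Exact f k Wp :=
      ⟨hinvp, fun g hg h hh w hw => hW.mul g (HH_mono k hg) h (HH_mono k hh) w
        ((hWp w).1 hw).1, fun w hw => hW.one w ((hWp w).1 hw).1⟩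
    have hIH := ih Wp hEp
    -- decomposition
    have hsup : W ≤ Wp ⊔ Wm := by
      intro w hw
      have h3 : w = (2 : K)⁻¹ • (w + f z w) + (2 : K)⁻¹ • (w - f z w) := by
        rw [← smul_add]
        have h4 : w + f z w + (w - f z w) = (2 : K) • w := by
          rw [two_smul]
          abel
        rw [h4, smul_smul, inv_mul_cancel₀ h2, one_smul]
      rw [h3]
      refine Submodule.add_mem_sup ?_ ?_
      · apply Submodule.smul_mem
        rw [hWp]
        refine ⟨W.add_mem hw (hW.mem z hzH w hw), ?_⟩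
        rw [map_add, hzz w hw, add_comm]
      · apply Submodule.smul_mem
        rw [hWm]
        refine ⟨W.sub_mem hw (hW.mem z hzH w hw), ?_⟩
        rw [map_sub, hzz w hw, neg_sub]
    have hinf : Wp ⊓ Wm = ⊥ := by
      rw [eq_bot_iff]
      rintro w ⟨h3, h4⟩
      have h5 := ((hWp w).1 h3).2
      have h6 := ((hWm w).1 h4).2
      rw [h5] at h6
      have h7 : (2 : K) • w = 0 := by
        rw [two_smul]
        nth_rewrite 1 [h6]
        abel
      rw [Submodule.mem_bot]
      exact (smul_eq_zero.1 h7).resolve_left h2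
    have hdim : finrank K Wp + finrank K Wm ≤ finrank K W := by
      have h3 := Submodule.finrank_sup_add_finrank_inf_eq Wp Wm
      rw [hinf, finrank_bot, add_zero] at h3
      rw [← h3]
      exact Submodule.finrank_mono (sup_le (inf_le_left) (inf_le_left))
    have hmap : ∀ T : Module.End K V, finrank K (W.map T) ≤
        finrank K (Wp.map T) + finrank K (Wm.map T) := by
      intro T
      refine (Submodule.finrank_mono (Submodule.map_mono hsup)).trans ?_
      rw [Submodule.map_sup]
      exact Submodule.finrank_add_le_finrank_add_finrank _ _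
    have hpz : ∀ g ∈ HH k, Wp.map (f (z * g) - 1) ≤ Wp.map (f g - 1) := by
      rintro g hg _ ⟨w, hw, rfl⟩
      refine ⟨w, hw, ?_⟩
      have hw' := (hWp w).1 hw
      have h3 := (hWp _).1 (hinvp g hg w hw)
      simp only [LinearMap.sub_apply, Module.End.one_apply]
      rw [← hW.mul z hzH g (HH_mono k hg) w hw'.1, h3.2]
    have hmz : ∀ g ∈ HH k, Wm.map (f (z * g) - 1) ≤ Wm.map (f g + 1) := by
      rintro g hg _ ⟨w, hw, rfl⟩
      refine ⟨-w, Wm.neg_mem hw, ?_⟩
      have hw' := (hWm w).1 hw
      have h3 := (hWm _).1 (hinvm g hg w hw)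
      simp only [LinearMap.sub_apply, LinearMap.add_apply, Module.End.one_apply]
      rw [← hW.mul z hzH g (HH_mono k hg) w hw'.1, h3.2, map_neg]
      abel
    have hmm : ∀ g ∈ HH k, finrank K (Wm.map (f g + 1)) + finrank K (Wm.map (f g - 1)) ≤
        finrank K Wm := by
      intro g hg
      apply map_add_le
      · rintro _ ⟨w, hw, rfl⟩
        simpa using Wm.sub_mem (hinvm g hg w hw) hw
      · rintro _ ⟨w, hw, rfl⟩
        have hw' := (hWm w).1 hw
        have h3 := hW.mul g (HH_mono k hg) g (HH_mono k hg) w hw'.1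
        rw [E2_sq, hW.one w hw'.1] at h3
        simp only [LinearMap.sub_apply, LinearMap.add_apply, Module.End.one_apply, map_sub, h3]
        abel
    have hterm : ∀ g ∈ HH k, finrank K (W.map (f g - 1)) + finrank K (W.map (f (z * g) - 1)) ≤
        2 * finrank K (Wp.map (f g - 1)) + finrank K Wm := by
      intro g hg
      have h3 := hmap (f g - 1)
      have h4 := hmap (f (z * g) - 1)
      have h5 := Submodule.finrank_mono (hpz g hg)
      have h6 := Submodule.finrank_mono (hmz g hg)
      have h7 := hmm g hg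
      omega
    rw [sum_HH]
    have h8 : ∑ g ∈ HH k, (finrank K (W.map (f g - 1)) + finrank K (W.map (f (z * g) - 1))) ≤
        ∑ g ∈ HH k, (2 * finrank K (Wp.map (f g - 1)) + finrank K Wm) :=
      Finset.sum_le_sum hterm
    have h8' : ∑ g ∈ HH k, (2 * finrank K (Wp.map (f g - 1)) + finrank K Wm) =
        2 * ∑ g ∈ HH k, finrank K (Wp.map (f g - 1)) + 2 ^ k * finrank K Wm := by
      rw [Finset.sum_add_distrib, ← Finset.mul_sum, Finset.sum_const, card_HH, smul_eq_mul]
    rw [h8'] at h8
    have h9 : 2 ^ k * finrank K Wp + 2 ^ k * finrank K Wm ≤ 2 ^ k * finrank K W := by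
      rw [← mul_add]
      exact Nat.mul_le_mul_left _ hdim
    calc 2 * ∑ g ∈ HH k, (finrank K (W.map (f g - 1)) + finrank K (W.map (f (z * g) - 1)))
        ≤ 2 * (2 ^ k * finrank K W) := by
          apply Nat.mul_le_mul_left
          omega
      _ = 2 ^ (k + 1) * finrank K W := by ring

theorem upper (f : E2 → Module.End K V) (k : ℕ) (W : Submodule K V) (hW : Exact f k W) :
    2 * ∑ g ∈ HH k, finrank K (W.map (f g - 1)) ≤ 2 ^ k * finrank K W := by
  by_cases h2 : (2 : K) = 0
  · exact upper_char_two h2 f k W hW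
  · exact upper_char_ne_two h2 f k W hW

end Rep

end Y39.LinSofic
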