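import Mathlib

set_option autoImplicit false

/-! Highly transitive actions are `n`-Liouville for every `n`. -/

namespace Pool.Agent.Y39.Liou

open scoped Pointwise BigOperators

noncomputable section

variable {G X : Type} [Group G] [MulAction G X] [DecidableEq X]

/-- one step of the growth of a finite set -/
def stp (U : Finset G) (W : Finset X) : Finset X := W ∪ U.biUnion (fun g => g • W)

theorem le_stp (U : Finset G) (W : Finset X) : W ⊆ stp U W := Finset.subset_union_left

theorem smul_le_stp {U : Finset G} {g : G} (hg : g ∈ U) (W : Finset X) : g • W ⊆ stp U W := by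
  refine Finset.Subset.trans ?_ Finset.subset_union_right
  exact Finset.subset_biUnion_of_mem (fun g => g • W) hg

theorem stp_mono {U : Finset G} {W W' : Finset X} (h : W ⊆ W') : stp U W ⊆ stp U W' := by
  refine Finset.union_subset_union h ?_
  intro x hx
  rw [Finset.mem_biUnion] at hx ⊢
  obtain ⟨g, hg, hx⟩ := hx
  exact ⟨g, hg, Finset.smul_finset_subset_smul_finset h hx⟩

/-- the growth of a finite set -/
def grow (U : Finset G) (m : ℕ) (W : Finset X) : Finset X := (stp U)^[m] W

theorem grow_zero (U : Finset G) (W : Finset X) : grow U 0 W = W := rfl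

theorem grow_succ (U : Finset G) (m : ℕ) (W : Finset X) :
    grow U (m + 1) W = grow U m (stp U W) := rfl

theorem le_grow (U : Finset G) (m : ℕ) (W : Finset X) : W ⊆ grow U m W := by
  induction m generalizing W with
  | zero => exact Finset.Subset.refl _
  | succ m ih =>
    rw [grow_succ]
    exact (le_stp U W).trans (ih _)

theorem grow_mono {U : Finset G} {W W' : Finset X} (h : W ⊆ W') (m : ℕ) :
    grow U m W ⊆ grow U m W' := by
  induction m generalizing W W' with
  | zero => exact h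
  | succ m ih =>
    rw [grow_succ, grow_succ]
    exact ih (stp_mono h)

/-! ### The finite sets -/

/-- the data of the construction -/
structure Data (G X : Type) [Group G] [MulAction G X] where
  /-- enumeration of the group -/
  h : ℕ → G
  hh : Function.Surjective h
  /-- enumeration of the set -/
  e : ℕ → X
  he : Function.Surjective e
  /-- realisation of the permutations of a finite set -/
  sel : (Z : Finset X) → Equiv.Perm Z → G
  hsel : ∀ (Z : Finset X) (τ : Equiv.Perm Z) (x : Z), sel Z τ • (x : X) = τ x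
  hsel1 : ∀ Z : Finset X, sel Z 1 = 1
  /-- the number of steps -/
  N : ℕ → ℕ

variable (D : Data G X)

open Classical in
/-- the states -/
def state (D : Data G X) : ℕ → Finset X × Finset G
  | 0 => (∅, ∅)
  | k + 1 =>
    let U' := (state D k).2 ∪ Finset.univ.image (fun τ => D.h k * D.sel (state D k).1 τ)
    (grow U' (D.N (k + 1)) (insert (D.e k) (state D k).1), U')

/-- the finite sets -/
def ZZ (k : ℕ) : Finset X := (state D k).1

/-- the finite sets of group elements -/
def UU (k : ℕ) : Finset G := (state D k).2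

theorem UU_succ_mem (k : ℕ) (τ : Equiv.Perm (ZZ D k)) : D.h k * D.sel (ZZ D k) τ ∈ UU D (k + 1) := by
  classical
  show _ ∈ (state D k).2 ∪ Finset.univ.image (fun τ => D.h k * D.sel (state D k).1 τ)
  refine Finset.mem_union_right _ (Finset.mem_image.2 ⟨τ, Finset.mem_univ _, rfl⟩)

theorem UU_mono_succ (k : ℕ) : UU D k ⊆ UU D (k + 1) := by
  classical
  show _ ⊆ (state D k).2 ∪ Finset.univ.image (fun τ => D.h k * D.sel (state D k).1 τ)
  exact Finset.subset_union_left

theorem UU_mono {i k : ℕ} (h : i ≤ k) : UU D i ⊆ UU D k := by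
  induction k, h using Nat.le_induction with
  | base => exact Finset.Subset.refl _
  | succ k _ ih => exact ih.trans (UU_mono_succ D k)

theorem mem_UU {i k : ℕ} (h : i < k) (τ : Equiv.Perm (ZZ D i)) :
    D.h i * D.sel (ZZ D i) τ ∈ UU D k :=
  UU_mono D h (UU_succ_mem D i τ)

theorem grow_le_ZZ (k : ℕ) : grow (UU D (k + 1)) (D.N (k + 1)) (insert (D.e k) (ZZ D k)) ⊆
    ZZ D (k + 1) := by
  exact Finset.Subset.refl _

theorem ZZ_mono_succ (k : ℕ) : ZZ D k ⊆ ZZ D (k + 1) :=
  (Finset.subset_insert _ _).trans ((le_grow _ _ _).trans (grow_le_ZZ D k))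

theorem ZZ_mono {i k : ℕ} (h : i ≤ k) : ZZ D i ⊆ ZZ D k := by
  induction k, h using Nat.le_induction with
  | base => exact Finset.Subset.refl _
  | succ k _ ih => exact ih.trans (ZZ_mono_succ D k)

theorem exists_mem_ZZ (x : X) : ∃ k, x ∈ ZZ D k := by
  obtain ⟨k, hk⟩ := D.he x
  exact ⟨k + 1, grow_le_ZZ D k (le_grow _ _ _ (by rw [hk]; exact Finset.mem_insert_self _ _))⟩

theorem exists_sub_ZZ (W : Finset X) : ∃ k, W ⊆ ZZ D k := by
  induction W using Finset.induction_on with
  | empty => exact ⟨0, Finset.empty_subset _⟩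
  | insert a W _ ih =>
    obtain ⟨k, hk⟩ := ih
    obtain ⟨l, hl⟩ := exists_mem_ZZ D a
    refine ⟨max k l, ?_⟩
    intro x hx
    rcases Finset.mem_insert.1 hx with rfl | hx
    · exact ZZ_mono D (le_max_right _ _) hl
    · exact ZZ_mono D (le_max_left _ _) (hk hx)

/-! ### The probability measure -/

/-- the weights -/
def cc (j : ℕ) : ℝ := (1 / 2) ^ (j + 1)

theorem cc_pos (j : ℕ) : 0 < cc j := by unfold cc; positivity

theorem hasSum_cc : HasSum cc 1 := by
  have := hasSum_geometric_two' 1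
  convert this using 1
  ext j
  unfold cc
  rw [pow_succ]
  simp [div_eq_mul_inv]
  ring

theorem sum_cc (k : ℕ) : ∑ i ∈ Finset.range k, cc i = 1 - (1 / 2) ^ k := by
  induction k with
  | zero => simp
  | succ k ih =>
    rw [Finset.sum_range_succ, ih]
    unfold cc
    ring

/-- the index set -/
abbrev Om : Type := Σ j : ℕ, Equiv.Perm (ZZ D j)

/-- the weights -/
def ww (ω : Om D) : ℝ := cc ω.1 / (Fintype.card (Equiv.Perm (ZZ D ω.1)) : ℝ)

theorem ww_pos (ω : Om D) : 0 < ww D ω := by
  unfold ww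
  have : 0 < (Fintype.card (Equiv.Perm (ZZ D ω.1)) : ℝ) := by exact_mod_cast Fintype.card_pos
  exact div_pos (cc_pos _) this

theorem ww_fib (j : ℕ) : HasSum (fun τ : Equiv.Perm (ZZ D j) => ww D ⟨j, τ⟩) (cc j) := by
  have h0 : (Fintype.card (Equiv.Perm (ZZ D j)) : ℝ) ≠ 0 := by
    exact_mod_cast Fintype.card_ne_zero
  have h1 := hasSum_fintype (fun τ : Equiv.Perm (ZZ D j) => ww D ⟨j, τ⟩)
  have h2 : ∑ τ : Equiv.Perm (ZZ D j), ww D ⟨j, τ⟩ = cc j := by
    have h3 : ∀ τ : Equiv.Perm (ZZ D j), ww D ⟨j, τ⟩ =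
      cc j / (Fintype.card (Equiv.Perm (ZZ D j)) : ℝ) := fun _ => rfl
    rw [Finset.sum_congr rfl (fun τ _ => h3 τ), Finset.sum_const, Finset.card_univ, nsmul_eq_mul]
    field_simp
  rwa [h2] at h1

theorem hasSum_ww : HasSum (ww D) 1 := by
  refine HasSum.sigma_of_hasSum hasSum_cc (ww_fib D) ?_
  rw [summable_sigma_of_nonneg (fun ω => (ww_pos D ω).le)]
  refine ⟨fun j => (ww_fib D j).summable, ?_⟩
  have : (fun j => ∑' τ : Equiv.Perm (ZZ D j), ww D ⟨j, τ⟩) = cc := by
    ext j
    exact (ww_fib D j).tsum_eq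
  rw [this]
  exact hasSum_cc.summable

/-- the law on the index set -/
def WW : PMF (Om D) :=
  ⟨fun ω => ENNReal.ofReal (ww D ω), by
    have h1 := (hasSum_ww D)
    have h2 : HasSum (fun ω => ENNReal.ofReal (ww D ω)) (ENNReal.ofReal 1) := by
      rw [← h1.tsum_eq, ENNReal.ofReal_tsum_of_nonneg (fun ω => (ww_pos D ω).le) h1.summable]
      exact ENNReal.summable.hasSum
    rwa [ENNReal.ofReal_one] at h2⟩

theorem WW_toReal (ω : Om D) : (WW D ω).toReal = ww D ω :=
  ENNReal.toReal_ofReal (ww_pos D ω).le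

/-- the element attached to an index -/
def rr (ω : Om D) : G := D.h ω.1 * D.sel (ZZ D ω.1) ω.2

/-- the measure -/
def mu : PMF G := (WW D).map (rr D)

theorem mu_support (g : G) : mu D g ≠ 0 := by
  obtain ⟨j, hj⟩ := D.hh g
  rw [← PMF.mem_support_iff, mu, PMF.support_map]
  refine ⟨⟨j, 1⟩, ?_, ?_⟩
  · rw [PMF.mem_support_iff]
    intro h
    have h1 := WW_toReal D ⟨j, 1⟩
    rw [h] at h1
    have := ww_pos D ⟨j, 1⟩
    rw [← h1] at this
    simp at this
  · show D.h j * D.sel (ZZ D j) 1 = g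
    rw [D.hsel1, mul_one, hj]

/-! ### Expectations -/

theorem expect_map {α β : Type} (P : PMF α) (φ : α → β) (f : β → ℝ) (M : ℝ)
    (hM : ∀ b, |f b| ≤ M) :
    ∑' b, f b * ((P.map φ) b).toReal = ∑' a, f (φ a) * (P a).toReal := by
  classical
  have hP : Summable (fun a => (P a).toReal) := ENNReal.summable_toReal P.tsum_coe_ne_top
  have h1 : ∀ b, ((P.map φ) b).toReal = ∑' a, (if b = φ a then (P a).toReal else 0) := by
    intro b
    rw [PMF.map_apply, ENNReal.tsum_toReal_eq]
    · refine tsum_congr fun a => ?_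
      split_ifs <;> simp
    · intro a
      split_ifs
      · exact P.apply_ne_top a
      · exact ENNReal.zero_ne_top
  let F : β × α → ℝ := fun p => f p.1 * (if p.1 = φ p.2 then (P p.2).toReal else 0)
  have hF : Summable F := by
    have hinj : Function.Injective (fun a : α => (φ a, a)) := fun a b h => (Prod.mk.inj h).2
    have hsupp : ∀ p : β × α, p ∉ Set.range (fun a : α => (φ a, a)) → F p = 0 := by
      rintro ⟨b, a⟩ hp
      have : ¬ b = φ a := by
        rintro rfl
        exact hp ⟨a, rfl⟩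
      simp [F, this]
    rw [← hinj.summable_iff hsupp]
    refine Summable.of_norm_bounded (g := fun a => M * (P a).toReal) (hP.mul_left M) ?_
    intro a
    simp only [F, Function.comp_apply, if_true, Real.norm_eq_abs, abs_mul,
      abs_of_nonneg ENNReal.toReal_nonneg]
    exact mul_le_mul_of_nonneg_right (hM _) ENNReal.toReal_nonneg
  calc ∑' b, f b * ((P.map φ) b).toReal
      = ∑' b, ∑' a, F (b, a) := by
        refine tsum_congr fun b => ?_
        rw [h1, ← tsum_mul_left]
    _ = ∑' a, ∑' b, F (b, a) :=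
        (Summable.tsum_comm (f := fun b a => F (b, a)) hF).symm
    _ = ∑' a, f (φ a) * (P a).toReal := by
        refine tsum_congr fun a => ?_
        rw [tsum_eq_single (φ a)]
        · simp [F]
        · intro b hb
          simp [F, hb]

/-! ### The main argument -/

/-- the average of `f` over the `j`-th finite set of group elements -/
def av (j : ℕ) {Y : Type} [MulAction G Y] (f : Y → ℝ) (y : Y) : ℝ :=
  (∑ τ : Equiv.Perm (ZZ D j), f ((D.h j * D.sel (ZZ D j) τ) • y)) /
    (Fintype.card (Equiv.Perm (ZZ D j)) : ℝ)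

theorem card_pos' (j : ℕ) : 0 < (Fintype.card (Equiv.Perm (ZZ D j)) : ℝ) := by
  exact_mod_cast Fintype.card_pos

theorem av_le (j : ℕ) {Y : Type} [MulAction G Y] (f : Y → ℝ) (M : ℝ) (hM : ∀ y, |f y| ≤ M)
    (y : Y) : |av D j f y| ≤ M := by
  unfold av
  rw [abs_div, abs_of_pos (card_pos' D j), div_le_iff₀ (card_pos' D j)]
  refine (Finset.abs_sum_le_sum_abs _ _).trans ?_
  refine (Finset.sum_le_card_nsmul _ _ M (fun τ _ => hM _)).trans ?_
  rw [Finset.card_univ, nsmul_eq_mul, mul_comm]

/-- a bounded harmonic function is a mixture of averages -/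
theorem harmonic_eq {Y : Type} [MulAction G Y] (f : Y → ℝ) (M : ℝ) (hM : ∀ y, |f y| ≤ M)
    (hf : ∀ y, f y = ∑' z, f z * (((mu D).map (fun g => g • y)) z).toReal) (y : Y) :
    HasSum (fun j => cc j * av D j f y) (f y) := by
  have h1 : f y = ∑' ω : Om D, f (rr D ω • y) * (WW D ω).toReal := by
    rw [hf y, mu, PMF.map_comp, expect_map _ _ f M hM]
    rfl
  have h2 : Summable (fun ω : Om D => f (rr D ω • y) * (WW D ω).toReal) := by
    refine Summable.of_norm_bounded (g := fun ω => M * ww D ω)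
      ((hasSum_ww D).summable.mul_left M) ?_
    intro ω
    rw [WW_toReal, Real.norm_eq_abs, abs_mul, abs_of_pos (ww_pos D ω)]
    exact mul_le_mul_of_nonneg_right (hM _) (ww_pos D ω).le
  have h3 := h2.hasSum
  rw [← h1] at h3
  refine h3.sigma (fun j => ?_)
  have h4 := hasSum_fintype (fun τ : Equiv.Perm (ZZ D j) =>
    f (rr D ⟨j, τ⟩ • y) * (WW D ⟨j, τ⟩).toReal)
  have h5 : ∑ τ : Equiv.Perm (ZZ D j), f (rr D ⟨j, τ⟩ • y) * (WW D ⟨j, τ⟩).toReal =
      cc j * av D j f y := by
    unfold av
    rw [mul_div_assoc', Finset.mul_sum, Finset.sum_div]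
    refine Finset.sum_congr rfl fun τ _ => ?_
    rw [WW_toReal]
    show f ((D.h j * D.sel (ZZ D j) τ) • y) * (cc j / _) = _
    ring
  rwa [h5] at h4

/-- existence of a permutation of a finite set carrying a subset to another one -/
theorem exists_perm (Z A B : Finset X) (hA : A ⊆ Z) (hB : B ⊆ Z) (h : A.card = B.card) :
    ∃ ρ : Equiv.Perm Z, ∀ x : Z, (x : X) ∈ A ↔ ((ρ x : Z) : X) ∈ B := by
  classical
  have hc : Fintype.card {x : Z // (x : X) ∈ A} = Fintype.card {x : Z // (x : X) ∈ B} := by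
    have h1 : ∀ C : Finset X, C ⊆ Z → Fintype.card {x : Z // (x : X) ∈ C} = C.card := by
      intro C hC
      rw [← Fintype.card_coe C]
      exact Fintype.card_congr
        { toFun := fun x => ⟨x.1.1, x.2⟩
          invFun := fun x => ⟨⟨x.1, hC x.2⟩, x.2⟩
          left_inv := fun x => rfl
          right_inv := fun x => rfl }
    rw [h1 A hA, h1 B hB, h]
  let e := Fintype.equivOfCardEq hc
  refine ⟨e.extendSubtype, fun x => ?_⟩
  constructor
  · intro hx
    exact e.extendSubtype_mem x hx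
  · intro hx
    by_contra hx'
    exact e.extendSubtype_not_mem x hx' hx

theorem sel_smul (Z A : Finset X) (hA : A ⊆ Z) (τ : Equiv.Perm Z) (z : X) :
    z ∈ D.sel Z τ • A ↔ ∃ x : Z, (x : X) ∈ A ∧ ((τ x : Z) : X) = z := by
  rw [Finset.mem_smul_finset]
  constructor
  · rintro ⟨x, hx, rfl⟩
    exact ⟨⟨x, hA hx⟩, hx, (D.hsel Z τ ⟨x, hA hx⟩).symm⟩
  · rintro ⟨x, hx, rfl⟩
    exact ⟨x, hx, D.hsel Z τ x⟩

/-- the averages agree on the subsets of `Z_j` of the same cardinality -/
theorem av_eq {n : ℕ} (j : ℕ) (f : Set.powersetCard X n → ℝ) (A B : Set.powersetCard X n)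
    (hA : (A : Finset X) ⊆ ZZ D j) (hB : (B : Finset X) ⊆ ZZ D j) :
    av D j f A = av D j f B := by
  obtain ⟨ρ, hρ⟩ := exists_perm (ZZ D j) A B hA hB (A.2.trans B.2.symm)
  unfold av
  congr 1
  rw [← Equiv.sum_comp (Equiv.mulRight ρ)]
  refine Finset.sum_congr rfl fun τ _ => ?_
  congr 1
  rw [mul_smul, mul_smul]
  congr 1
  apply Subtype.ext
  rw [Set.powersetCard.coe_smul, Set.powersetCard.coe_smul]
  ext z
  rw [sel_smul D _ _ hA, sel_smul D _ _ hB]
  constructor
  · rintro ⟨x, hx, rfl⟩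
    exact ⟨ρ x, (hρ x).1 hx, rfl⟩
  · rintro ⟨x, hx, rfl⟩
    refine ⟨ρ.symm x, (hρ _).2 (by rwa [Equiv.apply_symm_apply]), ?_⟩
    show ((τ (ρ (ρ.symm x)) : ZZ D j) : X) = _
    rw [Equiv.apply_symm_apply]

/-- contraction -/
theorem contract {n : ℕ} (k : ℕ) (f : Set.powersetCard X n → ℝ) (M : ℝ) (hM : ∀ y, |f y| ≤ M)
    (hf : ∀ y, HasSum (fun j => cc j * av D j f y) (f y)) (m : ℕ) :
    ∀ W : Finset X, grow (UU D k) m W ⊆ ZZ D k → ∀ A B : Set.powersetCard X n,
      (A : Finset X) ⊆ W → (B : Finset X) ⊆ W →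
      |f A - f B| ≤ (1 - (1 / 2) ^ k) ^ m * (2 * M) := by
  have hs : (0 : ℝ) ≤ 1 - (1 / 2) ^ k := by
    have : ((1 : ℝ) / 2) ^ k ≤ 1 := pow_le_one₀ (by norm_num) (by norm_num)
    linarith
  induction m with
  | zero =>
    intro W _ A B _ _
    rw [pow_zero, one_mul]
    calc |f A - f B| ≤ |f A| + |f B| := abs_sub _ _
      _ ≤ 2 * M := by linarith [hM A, hM B]
  | succ m ih =>
    intro W hW A B hA hB
    have hWZ : W ⊆ ZZ D k := (le_grow _ _ _).trans hW
    -- the tail
    have htail : ∀ y, HasSum (fun j => cc (j + k) * av D (j + k) f y)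
        (f y - ∑ i ∈ Finset.range k, cc i * av D i f y) := by
      intro y
      refine (hasSum_nat_add_iff (f := fun j => cc j * av D j f y) k).2 ?_
      have h9 : f y - ∑ i ∈ Finset.range k, cc i * av D i f y +
          ∑ i ∈ Finset.range k, cc i * av D i f y = f y := by ring
      rw [h9]
      exact hf y
    have h1 : f A - ∑ i ∈ Finset.range k, cc i * av D i f A =
        f B - ∑ i ∈ Finset.range k, cc i * av D i f B := by
      refine (htail A).unique ?_
      convert htail B using 1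
      funext j
      rw [av_eq D (j + k) f A B ((hA.trans hWZ).trans (ZZ_mono D (by omega)))
        ((hB.trans hWZ).trans (ZZ_mono D (by omega)))]
    have h2 : f A - f B = ∑ i ∈ Finset.range k, cc i * (av D i f A - av D i f B) := by
      rw [Finset.sum_congr rfl (fun i _ => mul_sub (cc i) (av D i f A) (av D i f B)),
        Finset.sum_sub_distrib]
      linarith
    have h3 : ∀ i ∈ Finset.range k, |cc i * (av D i f A - av D i f B)| ≤
        cc i * ((1 - (1 / 2) ^ k) ^ m * (2 * M)) := by
      intro i hi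
      rw [Finset.mem_range] at hi
      rw [abs_mul, abs_of_pos (cc_pos i)]
      refine mul_le_mul_of_nonneg_left ?_ (cc_pos i).le
      unfold av
      rw [← sub_div, ← Finset.sum_sub_distrib, abs_div, abs_of_pos (card_pos' D i),
        div_le_iff₀ (card_pos' D i)]
      refine (Finset.abs_sum_le_sum_abs _ _).trans ?_
      refine (Finset.sum_le_card_nsmul _ _ ((1 - (1 / 2) ^ k) ^ m * (2 * M))
        (fun τ _ => ?_)).trans ?_
      · have hg : D.h i * D.sel (ZZ D i) τ ∈ UU D k := mem_UU D hi τ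
        refine ih (stp (UU D k) W) hW _ _ ?_ ?_
        · rw [Set.powersetCard.coe_smul]
          exact (Finset.smul_finset_subset_smul_finset hA).trans (smul_le_stp hg W)
        · rw [Set.powersetCard.coe_smul]
          exact (Finset.smul_finset_subset_smul_finset hB).trans (smul_le_stp hg W)
      · rw [Finset.card_univ, nsmul_eq_mul, mul_comm]
    rw [h2]
    refine (Finset.abs_sum_le_sum_abs _ _).trans ((Finset.sum_le_sum h3).trans ?_)
    rw [← Finset.sum_mul, sum_cc, pow_succ]
    exact le_of_eq (by ring)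

theorem const_of {n : ℕ} (hN : ∀ k, (1 - (1 / 2 : ℝ) ^ k) ^ D.N k ≤ 1 / (k + 1 : ℝ))
    (f : Set.powersetCard X n → ℝ) (M : ℝ) (hM : ∀ y, |f y| ≤ M)
    (hf : ∀ y, HasSum (fun j => cc j * av D j f y) (f y)) (A B : Set.powersetCard X n) :
    f A = f B := by
  have hM0 : 0 ≤ M := (abs_nonneg _).trans (hM A)
  obtain ⟨k₀, hk₀⟩ := exists_sub_ZZ D ((A : Finset X) ∪ (B : Finset X))
  have key : ∀ k, k₀ ≤ k → |f A - f B| ≤ 1 / ((k : ℝ) + 1) * (2 * M) := by
    intro k hk
    have h1 := contract D (k + 1) f M hM hf (D.N (k + 1)) ((A : Finset X) ∪ (B : Finset X))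
      ((grow_mono ((hk₀.trans (ZZ_mono D hk)).trans (Finset.subset_insert _ _)) _).trans
        (grow_le_ZZ D k)) A B Finset.subset_union_left Finset.subset_union_right
    refine h1.trans (mul_le_mul_of_nonneg_right ((hN (k + 1)).trans ?_) (by linarith))
    apply one_div_le_one_div_of_le
    · positivity
    · push_cast; linarith
  have h2 : Filter.Tendsto (fun k : ℕ => 1 / ((k : ℝ) + 1) * (2 * M)) Filter.atTop (nhds (0 * (2 * M))) :=
    tendsto_one_div_add_atTop_nhds_zero_nat.mul_const _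
  rw [zero_mul] at h2
  have h3 : |f A - f B| ≤ 0 :=
    ge_of_tendsto h2 (Filter.eventually_atTop.2 ⟨k₀, key⟩)
  have h4 := abs_nonpos_iff.1 h3
  linarith

/-- Highly transitive actions of countable groups: one measure of full support for which all the
actions on `n`-element subsets are Liouville. -/
theorem main (G X : Type) [Group G] [MulAction G X] [DecidableEq X] [Countable G] [Countable X]
    [Nonempty X]
    (hX : ∀ (Z : Finset X) (τ : Equiv.Perm Z), ∃ g : G, ∀ x : Z, g • (x : X) = τ x) :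
    ∃ μ : PMF G, (∀ g, μ g ≠ 0) ∧ ∀ n : ℕ, ∀ f : Set.powersetCard X n → ℝ,
      (∃ M, ∀ y, |f y| ≤ M) →
      (∀ y, f y = ∑' z, f z * ((μ.map (fun g => g • y)) z).toReal) → ∀ A B, f A = f B := by
  classical
  obtain ⟨h, hh⟩ := exists_surjective_nat G
  obtain ⟨e, he⟩ := exists_surjective_nat X
  have hN : ∀ k : ℕ, ∃ N : ℕ, (1 - (1 / 2 : ℝ) ^ k) ^ N ≤ 1 / (k + 1 : ℝ) := by
    intro k
    have h1 : (1 - (1 / 2 : ℝ) ^ k) < 1 := by
      have : (0 : ℝ) < (1 / 2) ^ k := by positivity
      linarith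
    have h2 : (0 : ℝ) < 1 / (k + 1 : ℝ) := by positivity
    have h0 : (0 : ℝ) ≤ 1 - (1 / 2 : ℝ) ^ k := by
      have : ((1 : ℝ) / 2) ^ k ≤ 1 := pow_le_one₀ (by norm_num) (by norm_num)
      linarith
    obtain ⟨N, hN⟩ := exists_pow_lt_of_lt_one h2 h1
    exact ⟨N, hN.le⟩
  choose N hN using hN
  choose s hs using hX
  let D : Data G X :=
    { h := h
      hh := hh
      e := e
      he := he
      sel := fun Z τ => if τ = 1 then 1 else s Z τ
      hsel := by
        intro Z τ x
        by_cases hτ : τ = 1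
        · rw [if_pos hτ, one_smul, hτ]; rfl
        · rw [if_neg hτ]; exact hs Z τ x
      hsel1 := fun Z => if_pos rfl
      N := N }
  refine ⟨mu D, mu_support D, fun n f ⟨M, hM⟩ hf A B => ?_⟩
  exact const_of D hN f M hM (fun y => harmonic_eq D f M hM hf y) A B

end

end Pool.Agent.Y39.Liou
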