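import Pool.Agent.Y39.Liou
import Pool.Agent.Helper463.BCPara

set_option autoImplicit false

/-! The group of the permutations of the free group that agree with a left translation off a finite
set: finitely generated, not amenable, highly transitive. -/

namespace Pool.Agent.Y39.Liou

open scoped Pointwise

noncomputable section

/-- the free group -/
abbrev FF : Type := FreeGroup Bool

/-- the group -/
def EE : Subgroup (Equiv.Perm FF) where
  carrier := {σ | ∃ w : FF, {x | σ x ≠ w * x}.Finite}
  mul_mem' := by
    rintro σ σ' ⟨w, hw⟩ ⟨w', hw'⟩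
    refine ⟨w * w', (hw'.union (hw.preimage (f := σ') σ'.injective.injOn)).subset ?_⟩
    intro x hx
    by_contra h
    simp only [Set.mem_union, Set.mem_ofPred_eq, Set.mem_preimage, not_or, not_not] at h
    apply hx
    rw [Equiv.Perm.mul_apply, h.2, h.1, mul_assoc]
  one_mem' := ⟨1, by simp⟩
  inv_mem' := by
    rintro σ ⟨w, hw⟩
    refine ⟨w⁻¹, (hw.image σ).subset ?_⟩
    intro x hx
    refine ⟨σ⁻¹ x, ?_, σ.apply_symm_apply x⟩
    intro h
    apply hx
    have h2 : σ (σ⁻¹ x) = x := σ.apply_symm_apply x
    rw [h2] at h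
    rw [eq_inv_mul_iff_mul_eq]
    exact h.symm

theorem mem_EE {σ : Equiv.Perm FF} : σ ∈ EE ↔ ∃ w : FF, {x | σ x ≠ w * x}.Finite := Iff.rfl

theorem uniq {σ : Equiv.Perm FF} {w w' : FF} (h : {x | σ x ≠ w * x}.Finite)
    (h' : {x | σ x ≠ w' * x}.Finite) : w = w' := by
  have : Infinite FF := inferInstance
  obtain ⟨x, hx⟩ := (h.union h').infinite_compl.nonempty
  simp only [Set.mem_compl_iff, Set.mem_union, Set.mem_ofPred_eq, not_or, not_not] at hx
  exact mul_right_cancel (hx.1.symm.trans hx.2)

/-- the translation part -/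
def qq : EE →* FF where
  toFun σ := σ.2.choose
  map_one' := uniq (σ := 1) (1 : EE).2.choose_spec (by simp)
  map_mul' σ σ' := by
    refine uniq (σ := (σ * σ' : EE)) (σ * σ').2.choose_spec ?_
    refine ((σ'.2.choose_spec).union ((σ.2.choose_spec).preimage (f := σ'.1)
      σ'.1.injective.injOn)).subset ?_
    intro x hx
    by_contra h
    simp only [Set.mem_union, Set.mem_ofPred_eq, Set.mem_preimage, not_or, not_not] at h
    apply hx
    rw [Subgroup.coe_mul, Equiv.Perm.mul_apply, h.2, h.1, mul_assoc]

/-- left translations -/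
def LL : FF →* Equiv.Perm FF := MulAction.toPermHom FF FF

theorem LL_apply (w x : FF) : LL w x = w * x := rfl

theorem LL_mem (w : FF) : LL w ∈ EE := ⟨w, by simp [LL_apply]⟩

theorem qq_LL (w : FF) : qq ⟨LL w, LL_mem w⟩ = w :=
  uniq (σ := LL w) (⟨LL w, LL_mem w⟩ : EE).2.choose_spec (by simp [LL_apply])

theorem fin_mem {σ : Equiv.Perm FF} (h : {x | σ x ≠ x}.Finite) : σ ∈ EE :=
  ⟨1, by simpa using h⟩

/-- high transitivity -/
theorem EE_ht (Z : Finset FF) (τ : Equiv.Perm Z) : ∃ g : EE, ∀ x : Z, g • (x : FF) = τ x := by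
  classical
  refine ⟨⟨Equiv.Perm.ofSubtype (p := fun x => x ∈ Z) τ, fin_mem ?_⟩, fun x => ?_⟩
  · refine Z.finite_toSet.subset ?_
    intro x hx
    by_contra h
    exact hx (Equiv.Perm.ofSubtype_apply_of_not_mem τ h)
  · show Equiv.Perm.ofSubtype (p := fun x => x ∈ Z) τ (x : FF) = τ x
    exact Equiv.Perm.ofSubtype_apply_coe τ x

/-- the generators -/
def gens : Set (Equiv.Perm FF) :=
  {LL (FreeGroup.of true), LL (FreeGroup.of false), Equiv.swap 1 (FreeGroup.of true),
    Equiv.swap 1 (FreeGroup.of false)}

theorem swap_fin (x y : FF) : {z | Equiv.swap x y z ≠ z}.Finite := by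
  refine (Set.toFinite {x, y}).subset ?_
  intro z hz
  by_contra h
  simp only [Set.mem_insert_iff, Set.mem_singleton_iff, not_or] at h
  exact hz (Equiv.swap_apply_of_ne_of_ne h.1 h.2)

theorem EE_closure : Subgroup.closure gens = EE := by
  apply le_antisymm
  · rw [Subgroup.closure_le]
    intro σ hσ
    simp only [gens, Set.mem_insert_iff, Set.mem_singleton_iff] at hσ
    rcases hσ with rfl | rfl | rfl | rfl
    · exact LL_mem _
    · exact LL_mem _
    · exact fin_mem (swap_fin _ _)
    · exact fin_mem (swap_fin _ _)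
  · have hof : ∀ i : Bool, LL (FreeGroup.of i) ∈ Subgroup.closure gens := by
      intro i
      apply Subgroup.subset_closure
      cases i <;> simp [gens]
    have hsw : ∀ i : Bool, Equiv.swap 1 (FreeGroup.of i) ∈ Subgroup.closure gens := by
      intro i
      apply Subgroup.subset_closure
      cases i <;> simp [gens]
    have hL : ∀ w : FF, LL w ∈ Subgroup.closure gens := by
      intro w
      induction w using FreeGroup.induction_on with
      | C1 => rw [map_one]; exact Subgroup.one_mem _
      | of i => exact hof i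
      | inv_of i _ => rw [map_inv]; exact Subgroup.inv_mem _ (hof i)
      | mul a b ha hb => rw [map_mul]; exact Subgroup.mul_mem _ ha hb
    have hs1 : ∀ (g : FF) (i : Bool), Equiv.swap g (g * FreeGroup.of i) ∈
        Subgroup.closure gens := by
      intro g i
      have h1 : LL g * Equiv.swap 1 (FreeGroup.of i) * (LL g)⁻¹ =
          Equiv.swap g (g * FreeGroup.of i) := by
        have := Equiv.swap_apply_apply (LL g) 1 (FreeGroup.of i)
        rw [LL_apply, LL_apply, mul_one] at this
        exact this.symm
      rw [← h1]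
      exact Subgroup.mul_mem _ (Subgroup.mul_mem _ (hL g) (hsw i)) (Subgroup.inv_mem _ (hL g))
    have hs : ∀ (w g : FF), Equiv.swap g (g * w) ∈ Subgroup.closure gens := by
      intro w
      induction w using FreeGroup.induction_on with
      | C1 => intro g; rw [mul_one, Equiv.swap_self]; exact Subgroup.one_mem _
      | of i => intro g; exact hs1 g i
      | inv_of i _ =>
        intro g
        have := hs1 (g * (FreeGroup.of i)⁻¹) i
        rw [inv_mul_cancel_right, Equiv.swap_comm] at this
        exact this
      | mul a b ha hb =>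
        intro g
        rw [← mul_assoc]
        exact SubmonoidClass.swap_mem_trans _ (ha g) (hb (g * a))
    rintro σ ⟨w, hw⟩
    have h1 : (LL w)⁻¹ * σ ∈ Subgroup.closure {σ : Equiv.Perm FF | σ.IsSwap} := by
      rw [mem_closure_isSwap']
      refine hw.subset ?_
      intro x hx h
      apply hx
      have h1 : σ x = w * x := h
      show (LL w)⁻¹ (σ x) = x
      rw [h1]
      exact (LL w).symm_apply_apply x
    have h2 : Subgroup.closure {σ : Equiv.Perm FF | σ.IsSwap} ≤ Subgroup.closure gens := by
      rw [Subgroup.closure_le]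
      rintro σ ⟨x, y, -, rfl⟩
      have := hs (x⁻¹ * y) x
      rwa [mul_inv_cancel_left] at this
    have h3 := Subgroup.mul_mem _ (hL w) (h2 h1)
    rwa [mul_inv_cancel_left] at h3

theorem EE_FG : Group.FG EE := by
  rw [Group.fg_iff_subgroup_fg]
  rw [Subgroup.fg_iff]
  refine ⟨gens, EE_closure, ?_⟩
  unfold gens
  exact Set.toFinite _

instance : Countable EE := by
  obtain ⟨α, hα, φ, hφ⟩ := Group.fg_iff_exists_freeGroup_hom_surjective_finite.1 EE_FG
  have : Countable (FreeGroup α) := by
    unfold FreeGroup
    infer_instance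
  exact hφ.countable

end

end Pool.Agent.Y39.Liou
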